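import Pool.Agent.V8H25.Lang.Twist

/-!
# The inequality of Bessel, without a bound for the traces
-/

set_option autoImplicit false
set_option linter.unusedSectionVars false

namespace Pool.Agent.V8H25.Lang

open NumberField Complex Filter Topology IsDedekindDomain Asymptotics Polynomial
open Pool.Agent.N172.HS
open Pool.Agent.W353.EF (LFun)
open Pool.Agent.W353.TP (HX sysH LL LL_tendsto bdd_isLittleO lamS_sub)
open Pool.Agent.W353.NF (vx)
open Pool.Agent.W540.BE (nm two_le_nm EP normSys)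
open Pool.Agent.W353.EH (edgePoint size)
open Pool.Agent.V8H25.Gov (shift shift_trace comb comb_tH inner_comb irr_dichotomy HasOrder
  hasOrder_tendsto)
open scoped ComplexConjugate

variable {K : Type} [Field K] [NumberField K] {m : ℕ}
  {S : Finset (HeightOneSpectrum (𝓞 K))}
  {M : HeightOneSpectrum (𝓞 K) → Matrix (Fin m) (Fin m) ℂ} {C : ℝ}

theorem evLL : ∀ᶠ ε : ℝ in 𝓝[>] 0, 0 < LL ε := LL_tendsto.eventually_gt_atTop 0

theorem evPos : ∀ᶠ ε : ℝ in 𝓝[>] 0, 0 < ε := self_mem_nhdsWithin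

/-- the mean of the product with a representation -/
noncomputable def mean (S : Finset (HeightOneSpectrum (𝓞 K)))
    (M : HeightOneSpectrum (𝓞 K) → Matrix (Fin m) (Fin m) ℂ) (ρ : WRep K) (ε : ℝ) : ℝ :=
  ip ε (tf S M) (tr1 ρ) / LL ε

/-- the size of the L-function is the mean -/
theorem twist_tendsto (h : RankinSelberg S M C) {σ : WRep K} {τ : ℝ}
    {B : HeightOneSpectrum (𝓞 K) → ℂ[X]} (hB : IsTwist M σ τ B) :
    Tendsto (fun ε => size 0 τ B ε - mean S M (shift σ (-τ)) ε) (𝓝[>] 0) (𝓝 0) := by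
  obtain ⟨N, hN⟩ := twist_bound h hB
  rw [Metric.tendsto_nhds]
  intro η hη
  have hC := h.nonneg
  set t : ℝ := η / (4 * (N * (C + 1) + 1)) with ht
  have hpos : 0 < 4 * ((N : ℝ) * (C + 1) + 1) := by positivity
  have ht0 : 0 < t := div_pos hη hpos
  have ht1 : t * (N * (C + 1)) ≤ η / 4 := by
    have h1 : t * (4 * (N * (C + 1) + 1)) = η := div_mul_cancel₀ _ hpos.ne'
    nlinarith
  obtain ⟨D, hD⟩ := hN t ht0
  filter_upwards [hD, evLL, LL_tendsto.eventually_gt_atTop (4 * D / η)] with ε h1 h2 h3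
  rw [Real.dist_eq, sub_zero]
  have e : size 0 τ B ε - mean S M (shift σ (-τ)) ε =
      (Real.log ‖LFun B (edgePoint 0 τ + ε)‖ - ip ε (tf S M) (tr1 (shift σ (-τ)))) / LL ε := by
    unfold size mean
    rw [sub_div]
    rfl
  rw [e, abs_div, abs_of_pos h2, div_lt_iff₀ h2]
  have h4 : D < η / 4 * LL ε := by
    rw [div_lt_iff₀ hη] at h3
    linarith
  have h5 := mul_le_mul_of_nonneg_right ht1 h2.le
  have h6 : 0 < η * LL ε := mul_pos hη h2
  have h7 := h1.2
  linarith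

theorem gram_tendsto (ρ σ : WRep K) :
    Tendsto (fun ε => ip ε (tr1 ρ) (tr1 σ) / LL ε) (𝓝[>] 0) (𝓝 (ρ.inner σ : ℝ)) := by
  have h := (gram1 ρ σ).tendsto_div_nhds_zero.add_const (ρ.inner σ : ℝ)
  rw [zero_add] at h
  refine h.congr' ?_
  filter_upwards [evLL] with ε h1
  field_simp
  ring

section expand

variable {κ : Type} [Fintype κ]

/-- the square of the distance -/
theorem dist_expand {ε : ℝ} {f : HeightOneSpectrum (𝓞 K) → ℂ} (hf : L2 ε f)
    {g : κ → HeightOneSpectrum (𝓞 K) → ℂ} (hg : ∀ k, L2 ε (g k)) (b : κ → ℝ) :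
    (Sm ε fun v => ‖f v - ∑ k, (b k : ℂ) * g k v‖ ^ 2) ∧
    EV K ε (fun v => ‖f v - ∑ k, (b k : ℂ) * g k v‖ ^ 2) =
      EV K ε (fun v => ‖f v‖ ^ 2) + (-2) * (∑ k, b k * ip ε f (g k)) +
        ∑ k, ∑ l, b k * b l * ip ε (g k) (g l) := by
  have e1 : (fun v => ‖f v - ∑ k, (b k : ℂ) * g k v‖ ^ 2) = fun v =>
      (‖f v‖ ^ 2 + (-2) * ∑ k, b k * (f v * conj (g k v)).re) +
        ∑ k, ∑ l, b k * b l * (g k v * conj (g l v)).re := by
    funext v
    have hsq : ∀ z : ℂ, ‖z‖ ^ 2 = (z * conj z).re := fun z => by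
      rw [Complex.mul_conj, Complex.ofReal_re, Complex.normSq_eq_norm_sq]
    set W : ℂ := ∑ k, (b k : ℂ) * g k v with hW
    have h1 : (f v * conj W).re = ∑ k, b k * (f v * conj (g k v)).re := by
      rw [hW, map_sum, Finset.mul_sum, Complex.re_sum]
      refine Finset.sum_congr rfl fun k _ => ?_
      rw [map_mul, Complex.conj_ofReal]
      have e : f v * ((b k : ℂ) * conj (g k v)) = (b k : ℂ) * (f v * conj (g k v)) := by ring
      rw [e, Complex.re_ofReal_mul]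
    have h2 : (W * conj W).re = ∑ k, ∑ l, b k * b l * (g k v * conj (g l v)).re := by
      rw [hW, map_sum, Finset.sum_mul_sum, Complex.re_sum]
      refine Finset.sum_congr rfl fun k _ => ?_
      rw [Complex.re_sum]
      refine Finset.sum_congr rfl fun l _ => ?_
      rw [map_mul, Complex.conj_ofReal]
      have e : (b k : ℂ) * g k v * ((b l : ℂ) * conj (g l v)) =
        ((b k * b l : ℝ) : ℂ) * (g k v * conj (g l v)) := by
        push_cast
        ring
      rw [e, Complex.re_ofReal_mul]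
    have h3 : (W * conj (f v)).re = (f v * conj W).re := by
      rw [← Complex.conj_re, map_mul, Complex.conj_conj, mul_comm]
    rw [← h1, ← h2, hsq, hsq, map_sub, sub_mul, mul_sub, mul_sub]
    simp only [Complex.sub_re]
    rw [h3]
    ring
  have s1 : Sm ε fun v => (-2) * ∑ k, b k * (f v * conj (g k v)).re :=
    (Sm.sum Finset.univ fun k _ => (L2.mul hf (hg k)).const_mul (b k)).const_mul (-2)
  have s2 : Sm ε fun v => ∑ k, ∑ l, b k * b l * (g k v * conj (g l v)).re :=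
    Sm.sum Finset.univ fun k _ => Sm.sum Finset.univ fun l _ =>
      (L2.mul (hg k) (hg l)).const_mul (b k * b l)
  rw [e1]
  refine ⟨(Sm.add hf s1).add s2, ?_⟩
  rw [EV_add' (Sm.add hf s1) s2, EV_add' hf s1, EV_const_mul',
    EV_sum' Finset.univ (fun k _ => (L2.mul hf (hg k)).const_mul (b k)),
    EV_sum' Finset.univ (fun k _ => Sm.sum Finset.univ fun l _ =>
      (L2.mul (hg k) (hg l)).const_mul (b k * b l))]
  congr 1
  · congr 2
    exact Finset.sum_congr rfl fun k _ => EV_const_mul' _ _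
  · refine Finset.sum_congr rfl fun k _ => ?_
    rw [EV_sum' Finset.univ (fun l _ => (L2.mul (hg k) (hg l)).const_mul (b k * b l))]
    exact Finset.sum_congr rfl fun l _ => EV_const_mul' _ _

/-- **The distance from a combination of orthonormal representations.** -/
theorem dist_bound (h : RankinSelberg S M C) {σ : κ → WRep K} (hirr : ∀ k, (σ k).IsIrr)
    (horth : ∀ k l, k ≠ l → (σ k).inner (σ l) = 0) {r : κ → ℝ}
    (hr : ∀ k, Tendsto (mean S M (σ k)) (𝓝[>] 0) (𝓝 (r k))) {η : ℝ} (hη : 0 < η) :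
    ∀ᶠ ε : ℝ in 𝓝[>] 0, (Sm ε fun v => ‖tf S M v - ∑ k, (r k : ℂ) * tr1 (σ k) v‖ ^ 2) ∧
      EV K ε (fun v => ‖tf S M v - ∑ k, (r k : ℂ) * tr1 (σ k) v‖ ^ 2) ≤
        (C - ∑ k, r k ^ 2 + η) * LL ε := by
  have h1 : Tendsto (fun ε => (-2) * (∑ k, r k * mean S M (σ k) ε) +
      ∑ k, ∑ l, r k * r l * (ip ε (tr1 (σ k)) (tr1 (σ l)) / LL ε)) (𝓝[>] 0)
      (𝓝 ((-2) * (∑ k, r k * r k) + ∑ k, ∑ l, r k * r l * ((σ k).inner (σ l) : ℝ))) :=
    ((tendsto_finsetSum _ fun k _ => (hr k).const_mul _).const_mul _).add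
      (tendsto_finsetSum _ fun k _ => tendsto_finsetSum _ fun l _ =>
        (gram_tendsto (σ k) (σ l)).const_mul _)
  rw [orth_sum hirr horth] at h1
  have e1 : (-2) * (∑ k, r k * r k) + ∑ k, r k ^ 2 * 1 = -∑ k, r k ^ 2 := by
    have e2 : ∑ k, r k * r k = ∑ k, r k ^ 2 := Finset.sum_congr rfl fun k _ => by ring
    have e3 : ∑ k, r k ^ 2 * 1 = ∑ k, r k ^ 2 := Finset.sum_congr rfl fun k _ => mul_one _
    rw [e2, e3]
    ring
  rw [e1] at h1
  filter_upwards [h.bound (half_pos hη), h1.eventually_lt_const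
    (show -∑ k, r k ^ 2 < -∑ k, r k ^ 2 + η / 2 by linarith), evLL, evPos] with ε g1 g2 g3 g4
  obtain ⟨s1, s2⟩ := dist_expand g1.1 (fun k => tr1_L2 g4 (σ k)) r
  refine ⟨s1, ?_⟩
  rw [s2]
  have e4 : (-2) * (∑ k, r k * ip ε (tf S M) (tr1 (σ k))) +
      ∑ k, ∑ l, r k * r l * ip ε (tr1 (σ k)) (tr1 (σ l)) =
      ((-2) * (∑ k, r k * mean S M (σ k) ε) +
      ∑ k, ∑ l, r k * r l * (ip ε (tr1 (σ k)) (tr1 (σ l)) / LL ε)) * LL ε := by
    unfold mean
    rw [add_mul, mul_assoc, Finset.sum_mul, Finset.sum_mul]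
    congr 1
    · congr 1
      refine Finset.sum_congr rfl fun k _ => ?_
      rw [mul_assoc, div_mul_cancel₀ _ g3.ne']
    · refine Finset.sum_congr rfl fun k _ => ?_
      rw [Finset.sum_mul]
      refine Finset.sum_congr rfl fun l _ => ?_
      rw [mul_assoc (r k * r l), div_mul_cancel₀ _ g3.ne']
  have g5 := mul_lt_mul_of_pos_right g2 g3
  rw [← e4] at g5
  have g6 := g1.2
  nlinarith

/-- **The inequality of Bessel.** -/
theorem bessel_lim (h : RankinSelberg S M C) {σ : κ → WRep K} (hirr : ∀ k, (σ k).IsIrr)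
    (horth : ∀ k l, k ≠ l → (σ k).inner (σ l) = 0) {r : κ → ℝ}
    (hr : ∀ k, Tendsto (mean S M (σ k)) (𝓝[>] 0) (𝓝 (r k))) : ∑ k, r k ^ 2 ≤ C := by
  refine le_of_forall_pos_le_add fun η hη => ?_
  obtain ⟨ε, h1, h2⟩ := ((dist_bound h hirr horth hr hη).and evLL).exists
  have h3 : 0 ≤ (C - ∑ k, r k ^ 2 + η) * LL ε := (EV_nonneg' fun v => sq_nonneg _).trans h1.2
  have h4 := nonneg_of_mul_nonneg_left h3 h2
  linarith

/-- the means are bounded -/
theorem mean_bdd (h : RankinSelberg S M C) (σ : WRep K) :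
    ∃ b : ℝ, 0 < b ∧ ∀ᶠ ε : ℝ in 𝓝[>] 0, |mean S M σ ε| ≤ b := by
  have hC := h.nonneg
  have hσ : 0 ≤ (σ.inner σ : ℝ) := by
    refine ge_of_tendsto (gram_tendsto σ σ) ?_
    filter_upwards [evLL] with ε h1
    refine div_nonneg (EV_nonneg' fun v => ?_) h1.le
    rw [Complex.mul_conj, Complex.ofReal_re]
    exact Complex.normSq_nonneg _
  refine ⟨C + 1 + (σ.inner σ + 1), by linarith, ?_⟩
  filter_upwards [h.bound one_pos, (gram_tendsto σ σ).eventually_lt_const
    (lt_add_one _), evLL, evPos] with ε h1 h2 h3 h4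
  have h5 := ip_two h1.1 (tr1_L2 h4 σ) one_pos
  rw [one_mul, inv_one, one_mul] at h5
  have e1 : EV K ε (fun v => ‖tr1 σ v‖ ^ 2) = ip ε (tr1 σ) (tr1 σ) := by
    unfold ip
    congr 1
    funext v
    rw [Complex.mul_conj, Complex.ofReal_re, Complex.normSq_eq_norm_sq]
  rw [e1] at h5
  rw [div_lt_iff₀ h3] at h2
  unfold mean
  rw [abs_div, abs_of_pos h3, div_le_iff₀ h3]
  have h6 := h1.2
  nlinarith [abs_nonneg (ip ε (tf S M) (tr1 σ))]

/-- **The inequality of Bessel, without limits**: large means -/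
theorem bessel_large (h : RankinSelberg S M C) {σ : κ → WRep K} (hirr : ∀ k, (σ k).IsIrr)
    (horth : ∀ k l, k ≠ l → (σ k).inner (σ l) = 0) {δ : ℝ} (hδ : 0 ≤ δ)
    (hr : ∀ k, ∀ᶠ ε : ℝ in 𝓝[>] 0, δ ≤ |mean S M (σ k) ε|) : Fintype.card κ * δ ^ 2 ≤ C := by
  classical
  refine le_of_forall_pos_le_add fun η hη => ?_
  choose b hb0 hb using fun k => mean_bdd h (σ k)
  set Bd : ℝ := 1 + ∑ k, ∑ l, b k * b l with hBd
  have hBd0 : 0 < Bd := by
    have : 0 ≤ ∑ k, ∑ l, b k * b l :=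
      Finset.sum_nonneg fun k _ => Finset.sum_nonneg fun l _ =>
        mul_nonneg (hb0 k).le (hb0 l).le
    linarith
  set η' : ℝ := η / (2 * Bd) with hη'
  have hη'0 : 0 < η' := by positivity
  have h1 : ∀ᶠ ε : ℝ in 𝓝[>] 0, ∀ k l,
      |ip ε (tr1 (σ k)) (tr1 (σ l)) / LL ε - (σ k).inner (σ l)| < η' := by
    rw [Filter.eventually_all]
    intro k
    rw [Filter.eventually_all]
    intro l
    have h2 := ((gram_tendsto (σ k) (σ l)).sub_const ((σ k).inner (σ l) : ℝ)).abs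
    rw [sub_self, abs_zero] at h2
    exact h2.eventually_lt_const hη'0
  obtain ⟨ε, g0, g1, g2, g3, g4, g5⟩ := ((h.bound (half_pos hη)).and (h1.and
    ((Filter.eventually_all.2 hb).and ((Filter.eventually_all.2 hr).and (evLL.and evPos))))).exists
  set c : κ → ℝ := fun k => mean S M (σ k) ε with hc
  obtain ⟨s1, s2⟩ := dist_expand g0.1 (fun k => tr1_L2 g5 (σ k)) c
  have s3 : 0 ≤ EV K ε (fun v => ‖tf S M v - ∑ k, (c k : ℂ) * tr1 (σ k) v‖ ^ 2) :=
    EV_nonneg' fun v => sq_nonneg _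
  rw [s2] at s3
  have e1 : ∑ k, c k * ip ε (tf S M) (tr1 (σ k)) = (∑ k, c k ^ 2) * LL ε := by
    rw [Finset.sum_mul]
    refine Finset.sum_congr rfl fun k _ => ?_
    have e2 : ip ε (tf S M) (tr1 (σ k)) = c k * LL ε := (div_mul_cancel₀ _ g4.ne').symm
    rw [e2]
    ring
  have e3 : ∑ k, ∑ l, c k * c l * ip ε (tr1 (σ k)) (tr1 (σ l)) ≤
      (∑ k, c k ^ 2 + η / 2) * LL ε := by
    have e4 : ∑ k, ∑ l, c k * c l * ip ε (tr1 (σ k)) (tr1 (σ l)) =
        (∑ k, ∑ l, c k * c l * ((σ k).inner (σ l) : ℝ) + ∑ k, ∑ l, c k * c l *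
          (ip ε (tr1 (σ k)) (tr1 (σ l)) / LL ε - (σ k).inner (σ l))) * LL ε := by
      rw [← Finset.sum_add_distrib, Finset.sum_mul]
      refine Finset.sum_congr rfl fun k _ => ?_
      rw [← Finset.sum_add_distrib, Finset.sum_mul]
      refine Finset.sum_congr rfl fun l _ => ?_
      rw [← mul_add, add_sub_cancel, mul_assoc (c k * c l), div_mul_cancel₀ _ g4.ne']
    rw [e4, orth_sum hirr horth]
    refine mul_le_mul_of_nonneg_right ?_ g4.le
    have e5 : ∑ k, c k ^ 2 * 1 = ∑ k, c k ^ 2 := Finset.sum_congr rfl fun k _ => mul_one _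
    rw [e5]
    have e6 : ∑ k, ∑ l, c k * c l *
        (ip ε (tr1 (σ k)) (tr1 (σ l)) / LL ε - (σ k).inner (σ l)) ≤
        ∑ k, ∑ l, b k * b l * η' := by
      refine Finset.sum_le_sum fun k _ => Finset.sum_le_sum fun l _ => ?_
      refine (le_abs_self _).trans ?_
      rw [abs_mul, abs_mul]
      exact mul_le_mul (mul_le_mul (g2 k) (g2 l) (abs_nonneg _) (hb0 k).le) (g1 k l).le
        (abs_nonneg _) (mul_nonneg (hb0 k).le (hb0 l).le)
    have e7 : ∑ k, ∑ l, b k * b l * η' ≤ η / 2 := by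
      have e8 : ∑ k, ∑ l, b k * b l * η' = (∑ k, ∑ l, b k * b l) * η' := by
        rw [Finset.sum_mul]
        exact Finset.sum_congr rfl fun k _ => by rw [Finset.sum_mul]
      have e9 : (∑ k, ∑ l, b k * b l) ≤ Bd := by rw [hBd]; linarith
      have e10 : Bd * η' = η / 2 := by
        rw [hη']
        field_simp
      rw [e8]
      exact (mul_le_mul_of_nonneg_right e9 hη'0.le).trans (le_of_eq e10)
    linarith
  rw [e1] at s3
  have g6 := g0.2
  have g7 : (∑ k, c k ^ 2) * LL ε ≤ (C + η) * LL ε := by nlinarith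
  have g8 : ∑ k, c k ^ 2 ≤ C + η := le_of_mul_le_mul_right g7 g4
  refine le_trans ?_ g8
  have g9 : ∑ _k : κ, δ ^ 2 ≤ ∑ k, c k ^ 2 := by
    refine Finset.sum_le_sum fun k _ => ?_
    rw [← sq_abs (c k)]
    exact pow_le_pow_left₀ hδ (g3 k) 2
  rwa [Finset.sum_const, Finset.card_univ, nsmul_eq_mul] at g9

end expand

end Pool.Agent.V8H25.Lang
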