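import Pool.Agent.V8H25.Lang.L2

/-!
# Definitions: the Rankin-Selberg condition, and twists by representations of the Weil group
-/

set_option autoImplicit false
set_option linter.unusedSectionVars false

namespace Pool.Agent.V8H25.Lang

open NumberField Filter Topology IsDedekindDomain Polynomial
open Pool.Agent.N172.HS (WRep)
open Pool.Agent.W353.EH (edgePoint)
open scoped ComplexConjugate

variable {K : Type} [Field K] [NumberField K] {m : ℕ}

/-- The polynomials `B v` are the Euler factors of `L(s, π, ρ ⊗ σ^∨)`, where `M v = ρ(A_v)` for the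
Satake class `A_v` of `π`: for almost all primes `v`, `B_v(z) = ∏ det (1 - z γ_l ρ(A_v))` with numbers
`γ_l` of absolute value one, the sum of which is the complex conjugate of the trace of the Frobenius at
`v` on `σ`; at the other primes `B v` is an arbitrary polynomial, and no factor `1 / B_v(q_v^{-s})` has a
pole at `s = 1 + iτ`. -/
def IsTwist (M : HeightOneSpectrum (𝓞 K) → Matrix (Fin m) (Fin m) ℂ) (σ : WRep K) (τ : ℝ)
    (B : HeightOneSpectrum (𝓞 K) → ℂ[X]) : Prop :=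
  (∃ N : ℕ, ∀ᶠ v in cofinite, ∃ γ : Fin N → ℂ, (∀ l, ‖γ l‖ = 1) ∧
    ∑ l, γ l = conj (σ.trace v) ∧
    ∀ z : ℂ, (B v).eval z = ∏ l, (1 - (z * γ l) • M v).det) ∧
  ∀ v, (B v).eval ((Ideal.absNorm v.asIdeal : ℂ) ^ (-edgePoint 0 τ)) ≠ 0

/-- The condition of Rankin and Selberg for `M v = ρ(A_v)`, `v ∉ S`.  The logarithm of
`L_S(s, π, ρ ⊗ \bar ρ)` is the sum of `|tr ρ(A_v)^k|² / (k q_v^{ks})` over `k ≥ 1` and `v ∉ S`.  The
condition says that the Euler factors of `L_S(s, π, ρ)` have no poles with `Re s > 1/2` (so that those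
of `L_S(s, π, ρ ⊗ \bar ρ)` have none with `Re s > 1`), and that the sum is at most
`(C + η) log(1/ε)` at `s = 1 + ε`, for every `η > 0` and all small `ε > 0`.  It holds, for example, if
`L_S(s, π, ρ ⊗ \bar ρ)` converges absolutely for `Re s > 1` and has a pole of order `C` at `s = 1`. -/
def RankinSelberg (S : Finset (HeightOneSpectrum (𝓞 K)))
    (M : HeightOneSpectrum (𝓞 K) → Matrix (Fin m) (Fin m) ℂ) (C : ℝ) : Prop :=
  (∀ v ∉ S, ∀ z : ℂ, ‖z‖ ^ 2 * (Ideal.absNorm v.asIdeal : ℝ) < 1 → (1 - z • M v).det ≠ 0) ∧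
  ∀ η : ℝ, 0 < η → ∀ᶠ ε : ℝ in 𝓝[>] 0, ∀ (T : Finset (HeightOneSpectrum (𝓞 K))) (n : ℕ),
    Disjoint T S → ∑ v ∈ T, ∑ k ∈ Finset.Icc 1 n,
      ‖(M v ^ k).trace‖ ^ 2 / k * (Ideal.absNorm v.asIdeal : ℝ) ^ (-(k * (1 + ε))) ≤
        (C + η) * Real.log (1 / ε)

end Pool.Agent.V8H25.Lang
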