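import Mathlib

/-!
# Eigenvalues of a matrix, and the factors `det(1 - z M)`
-/

set_option autoImplicit false

namespace Pool.Agent.V8H25.Lang

open Polynomial Matrix

variable {m : ℕ}

/-- the factor in terms of numbers -/
def IsEig (M : Matrix (Fin m) (Fin m) ℂ) (α : Fin m → ℂ) : Prop :=
  ∀ z : ℂ, (1 - z • M).det = ∏ j, (1 - z * α j)

theorem exists_isEig (M : Matrix (Fin m) (Fin m) ℂ) : ∃ α : Fin m → ℂ, IsEig M α := by
  have hs : M.charpoly.Splits := IsAlgClosed.splits _
  have hcard : M.charpoly.roots.card = m := by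
    rw [← hs.natDegree_eq_card_roots, Matrix.charpoly_natDegree_eq_dim, Fintype.card_fin]
  obtain ⟨l, hl⟩ := Quot.exists_rep M.charpoly.roots
  have hl' : (l : Multiset ℂ) = M.charpoly.roots := hl
  have hlen : l.length = m := by
    rw [← hcard, ← hl', Multiset.coe_card]
  refine ⟨fun j => l.get (j.cast hlen.symm), fun z => ?_⟩
  have hprod : ∀ x : ℂ, M.charpoly.eval x = ∏ j : Fin m, (x - l.get (j.cast hlen.symm)) := by
    intro x
    have h1 := hs.eq_prod_roots_of_monic (Matrix.charpoly_monic M)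
    rw [h1, ← hl', Polynomial.eval_multiset_prod, Multiset.map_map]
    simp only [Multiset.map_coe, Multiset.prod_coe, Function.comp_apply, Polynomial.eval_sub,
      Polynomial.eval_X, Polynomial.eval_C]
    have h2 : (List.map (fun a => x - a) l).prod = ∏ j : Fin l.length, (x - l.get j) := by
      conv_lhs => rw [← List.ofFn_get l]
      rw [List.map_ofFn, List.prod_ofFn]
      rfl
    rw [h2]
    exact (Fintype.prod_equiv (finCongr hlen.symm) _ _ fun j => rfl).symm
  by_cases hz : z = 0
  · subst hz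
    simp
  · have e1 : (1 - z • M) = z • (Matrix.scalar (Fin m) z⁻¹ - M) := by
      rw [smul_sub]
      congr 1
      ext i j
      rw [Matrix.smul_apply, Matrix.scalar_apply, Matrix.diagonal_apply, Matrix.one_apply]
      split_ifs
      · rw [smul_eq_mul, mul_inv_cancel₀ hz]
      · rw [smul_zero]
    rw [e1, Matrix.det_smul, ← Matrix.eval_charpoly, hprod, Fintype.card_fin, ← Fin.prod_const,
      ← Finset.prod_mul_distrib]
    refine Finset.prod_congr rfl fun j _ => ?_
    rw [mul_sub, mul_inv_cancel₀ hz]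

theorem eval_charpolyRev' (M : Matrix (Fin m) (Fin m) ℂ) (z : ℂ) :
    M.charpolyRev.eval z = (1 - z • M).det := by
  unfold Matrix.charpolyRev
  rw [← Polynomial.coe_evalRingHom, RingHom.map_det]
  congr 1
  ext i j
  rcases eq_or_ne i j with h | h
  · subst h
    simp
    exact mul_comm _ _
  · simp [h]
    exact mul_comm _ _

theorem IsEig.trace {M : Matrix (Fin m) (Fin m) ℂ} {α : Fin m → ℂ} (h : IsEig M α) :
    M.trace = ∑ j, α j := by
  have h1 : M.charpolyRev = ∏ j, (1 - C (α j) * X) := by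
    refine Polynomial.funext fun z => ?_
    rw [eval_charpolyRev', h z, Polynomial.eval_prod]
    refine Finset.prod_congr rfl fun j _ => ?_
    rw [Polynomial.eval_sub, Polynomial.eval_one, Polynomial.eval_mul, Polynomial.eval_C,
      Polynomial.eval_X, mul_comm]
  have h2 := Matrix.coeff_charpolyRev_eq_neg_trace M
  rw [h1] at h2
  have h3 : ∀ s : Finset (Fin m), (∏ j ∈ s, (1 - C (α j) * X : ℂ[X])).coeff 0 = 1 ∧
      (∏ j ∈ s, (1 - C (α j) * X : ℂ[X])).coeff 1 = -∑ j ∈ s, α j := by
    classical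
    intro s
    induction s using Finset.induction_on with
    | empty => simp [Polynomial.coeff_one]
    | insert a s ha ih =>
      rw [Finset.prod_insert ha, Finset.sum_insert ha, sub_mul, one_mul]
      refine ⟨?_, ?_⟩
      · rw [Polynomial.coeff_sub, ih.1, mul_assoc, Polynomial.coeff_C_mul,
          Polynomial.coeff_X_mul_zero, mul_zero, sub_zero]
      · rw [Polynomial.coeff_sub, ih.2, mul_assoc, Polynomial.coeff_C_mul,
          Polynomial.coeff_X_mul, ih.1]
        ring
  rw [(h3 Finset.univ).2] at h2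
  exact (neg_injective h2).symm

theorem IsEig.sq {M : Matrix (Fin m) (Fin m) ℂ} {α : Fin m → ℂ} (h : IsEig M α) :
    IsEig (M ^ 2) fun j => α j ^ 2 := by
  intro w
  obtain ⟨z, hz⟩ := IsAlgClosed.exists_pow_nat_eq w (n := 2) (by norm_num)
  have e1 : (1 - w • M ^ 2) = (1 - z • M) * (1 - (-z) • M) := by
    have e2 : z ^ 2 • M ^ 2 = (z • M) * (z • M) := by
      rw [smul_mul_smul_comm, pow_two, pow_two]
    rw [← hz, e2, neg_smul, sub_neg_eq_add]
    generalize z • M = a
    noncomm_ring
  rw [e1, Matrix.det_mul, h z, h (-z), ← Finset.prod_mul_distrib]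
  refine Finset.prod_congr rfl fun j _ => ?_
  rw [← hz]
  ring

theorem IsEig.trace_sq {M : Matrix (Fin m) (Fin m) ℂ} {α : Fin m → ℂ} (h : IsEig M α) :
    (M ^ 2).trace = ∑ j, α j ^ 2 := h.sq.trace

/-- a bound for the eigenvalues -/
theorem IsEig.norm_le {M : Matrix (Fin m) (Fin m) ℂ} {α : Fin m → ℂ} (h : IsEig M α) {q : ℝ}
    (hq : 0 < q) (h0 : ∀ z : ℂ, ‖z‖ ^ 2 * q < 1 → (1 - z • M).det ≠ 0) (j : Fin m) :
    ‖α j‖ ^ 2 ≤ q := by
  by_contra hcon
  push Not at hcon
  have hα : α j ≠ 0 := by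
    intro h1
    rw [h1, norm_zero] at hcon
    norm_num at hcon
    linarith
  refine h0 (α j)⁻¹ ?_ ?_
  · rw [norm_inv, inv_pow, inv_mul_lt_iff₀ (by positivity)]
    linarith
  · rw [h]
    refine Finset.prod_eq_zero (Finset.mem_univ j) ?_
    rw [inv_mul_cancel₀ hα, sub_self]

end Pool.Agent.V8H25.Lang
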