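import Pool.Agent.W540.BE.Size

/-!
# The size of an Euler product near a point, for general local factors
-/

set_option autoImplicit false

namespace Pool.Agent.V8H25.Lang

open Complex Filter Topology ComplexConjugate Pool.Agent.H341R2 Polynomial
open Pool.Agent.W540.BE

variable {P : Type*} {N : P → ℕ}

/-- The logarithm of the absolute value of an Euler product near a point -/
theorem sizeG (hN : Pool.Agent.W540.BE.NormSys N) {Good : P → Prop} [DecidablePred Good]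
    (hfin : {p | ¬ Good p}.Finite) (B : P → ℂ[X]) (ρ : ℂ)
    (hB : ∀ p, ¬ Good p → (B p).eval (((N p : ℕ) : ℂ) ^ (-ρ)) ≠ 0)
    (G : ℝ → P → ℂ)
    (hs : ∀ᶠ ε : ℝ in 𝓝[>] 0, Summable fun p => if Good p then G ε p else 0)
    {L : ℝ → ℂ}
    (hL : ∀ ε : ℝ, 0 < ε → L ε = ∏' p : P, if Good p then cexp (G ε p) else
      ((B p).eval (((N p : ℕ) : ℂ) ^ (-(ρ + ε))))⁻¹) :
    ∃ C' : ℝ, ∀ᶠ ε : ℝ in 𝓝[>] 0, L ε ≠ 0 ∧
      |(∑' p, if Good p then G ε p else 0).re - Real.log ‖L ε‖| ≤ C' := by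
  classical
  set S := hfin.toFinset with hS
  have hBcont : ∀ p : P, ContinuousAt (fun s : ℂ => (B p).eval (((N p : ℕ) : ℂ) ^ (-s))) ρ := by
    intro p
    have hpc : ((N p : ℕ) : ℂ) ≠ 0 := by
      have := hN.two_le p
      exact_mod_cast (by omega : N p ≠ 0)
    have h2 : ContinuousAt (fun s : ℂ => ((N p : ℕ) : ℂ) ^ (-s)) ρ :=
      (continuousAt_const_cpow hpc).comp continuousAt_neg
    exact (B p).continuous.continuousAt.comp h2
  have hBlog : ∀ p, ¬ Good p → ∃ Cp : ℝ, ∀ᶠ ε : ℝ in 𝓝[>] 0,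
      (B p).eval (((N p : ℕ) : ℂ) ^ (-(ρ + ε))) ≠ 0 ∧
      |Real.log ‖(B p).eval (((N p : ℕ) : ℂ) ^ (-(ρ + ε)))‖| ≤ Cp := by
    intro p hp
    have h1 : Tendsto (fun ε : ℝ => (B p).eval (((N p : ℕ) : ℂ) ^ (-(ρ + ε)))) (𝓝[>] 0)
        (𝓝 ((B p).eval (((N p : ℕ) : ℂ) ^ (-ρ)))) := (hBcont p).tendsto.comp (path_tendsto' ρ)
    have h2 := (h1.norm.log (norm_ne_zero_iff.2 (hB p hp))).abs.isBoundedUnder_le
    obtain ⟨Cp, hCp⟩ := h2
    refine ⟨Cp, ?_⟩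
    filter_upwards [h1.eventually_ne (hB p hp), Filter.eventually_map.1 hCp] with ε h3 h4
    exact ⟨h3, h4⟩
  have hBlog' : ∀ p, ∃ Cp : ℝ, ¬ Good p → ∀ᶠ ε : ℝ in 𝓝[>] 0,
      (B p).eval (((N p : ℕ) : ℂ) ^ (-(ρ + ε))) ≠ 0 ∧
      |Real.log ‖(B p).eval (((N p : ℕ) : ℂ) ^ (-(ρ + ε)))‖| ≤ Cp := by
    intro p
    by_cases hp : Good p
    · exact ⟨0, fun h => absurd hp h⟩
    · obtain ⟨Cp, hCp⟩ := hBlog p hp
      exact ⟨Cp, fun _ => hCp⟩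
  choose Cb hCb using hBlog'
  have hbd : ∀ᶠ ε : ℝ in 𝓝[>] 0, ∀ p ∈ S,
      (B p).eval (((N p : ℕ) : ℂ) ^ (-(ρ + ε))) ≠ 0 ∧
      |Real.log ‖(B p).eval (((N p : ℕ) : ℂ) ^ (-(ρ + ε)))‖| ≤ Cb p := by
    rw [Filter.eventually_all_finset]
    exact fun p hp => hCb p (hfin.mem_toFinset.1 hp)
  refine ⟨∑ p ∈ S, Cb p, ?_⟩
  filter_upwards [hbd, hs, self_mem_nhdsWithin] with ε h1 hsum h3
  have hε : (0 : ℝ) < ε := h3
  have h2 := hL ε hε
  have h4 := tprod_splitP hfin (G ε)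
    (fun p => ((B p).eval (((N p : ℕ) : ℂ) ^ (-(ρ + ε))))⁻¹) hsum
  rw [h4] at h2
  have hprod : 0 < ∏ p ∈ S, ‖(B p).eval (((N p : ℕ) : ℂ) ^ (-(ρ + ε)))‖⁻¹ :=
    Finset.prod_pos fun p hp => inv_pos.2 (norm_pos_iff.2 (h1 p hp).1)
  have hnorm : ‖L ε‖ = (∏ p ∈ S, ‖(B p).eval (((N p : ℕ) : ℂ) ^ (-(ρ + ε)))‖⁻¹) *
      Real.exp (∑' p, if Good p then G ε p else 0).re := by
    rw [h2, norm_mul, Complex.norm_exp, norm_prod]
    simp only [norm_inv, hS]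
  have hpos : 0 < ‖L ε‖ := by
    rw [hnorm]
    exact mul_pos hprod (Real.exp_pos _)
  refine ⟨norm_pos_iff.1 hpos, ?_⟩
  have hlog : Real.log ‖L ε‖ = (∑ p ∈ S,
      -Real.log ‖(B p).eval (((N p : ℕ) : ℂ) ^ (-(ρ + ε)))‖) +
        (∑' p, if Good p then G ε p else 0).re := by
    rw [hnorm, Real.log_mul hprod.ne' (Real.exp_pos _).ne', Real.log_exp, Real.log_prod]
    · congr 1
      exact Finset.sum_congr rfl fun p _ => Real.log_inv _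
    · intro p hp
      exact inv_ne_zero (norm_ne_zero_iff.2 (h1 p hp).1)
  rw [hlog]
  have h5 : (∑' p, if Good p then G ε p else 0).re - ((∑ p ∈ S,
      -Real.log ‖(B p).eval (((N p : ℕ) : ℂ) ^ (-(ρ + ε)))‖) +
        (∑' p, if Good p then G ε p else 0).re) =
      -(∑ p ∈ S, -Real.log ‖(B p).eval (((N p : ℕ) : ℂ) ^ (-(ρ + ε)))‖) := by ring
  rw [h5, abs_neg]
  refine (Finset.abs_sum_le_sum_abs _ _).trans (Finset.sum_le_sum fun p hp => ?_)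
  rw [abs_neg]
  exact (h1 p hp).2

/-- the local factor: three terms of the logarithm -/
theorem log_factor {z : ℂ} (hz : ‖z‖ ≤ 3 / 4) :
    ‖-Complex.log (1 - z) - (z + z ^ 2 / 2)‖ ≤ 2 * ‖z‖ ^ 3 := by
  have hz1 : ‖-z‖ < 1 := by rw [norm_neg]; linarith
  have h := Complex.norm_log_sub_logTaylor_le 2 hz1
  have e : Complex.logTaylor (2 + 1) (-z) = -(z + z ^ 2 / 2) := by
    unfold Complex.logTaylor
    rw [Finset.sum_range_succ, Finset.sum_range_succ, Finset.sum_range_succ, Finset.sum_range_zero]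
    push_cast
    rw [div_zero]
    ring_nf
  rw [e, norm_neg] at h
  have e2 : -Complex.log (1 - z) - (z + z ^ 2 / 2) =
      -(Complex.log (1 + -z) - -(z + z ^ 2 / 2)) := by ring
  rw [e2, norm_neg]
  refine h.trans ?_
  have h3 : (1 - ‖z‖)⁻¹ ≤ 4 := by
    rw [inv_le_comm₀ (by linarith) (by norm_num)]
    linarith
  have h4 : 0 ≤ ‖z‖ ^ (2 + 1) := by positivity
  calc ‖z‖ ^ (2 + 1) * (1 - ‖z‖)⁻¹ / ((2 : ℕ) + 1 : ℝ) ≤ ‖z‖ ^ (2 + 1) * 4 / ((2 : ℕ) + 1 : ℝ) := by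
        refine div_le_div_of_nonneg_right (mul_le_mul_of_nonneg_left h3 h4) (by norm_num)
    _ ≤ 2 * ‖z‖ ^ 3 := by
        have h5 : 0 ≤ ‖z‖ ^ 3 := by positivity
        norm_num
        linarith

end Pool.Agent.V8H25.Lang
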