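import Pool.Agent.V8H25.Gov.Main
import Pool.Agent.V8H25.Lang.Eig
import Pool.Agent.V8H25.Lang.Gen

/-!
# Square summable functions on the primes
-/

set_option autoImplicit false
set_option linter.unusedSectionVars false

namespace Pool.Agent.V8H25.Lang

open NumberField Complex Filter Topology IsDedekindDomain Asymptotics Polynomial
open Pool.Agent.N172.HS
open Pool.Agent.W353.EF (LFun)
open Pool.Agent.W353.TP (HX sysH LL LL_tendsto bdd_isLittleO lamS_sub)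
open Pool.Agent.W353.NF (vx)
open Pool.Agent.W540.BE (nm two_le_nm EP normSys)
open Pool.Agent.V8H25.Gov (shift)
open scoped ComplexConjugate

variable {K : Type} [Field K] [NumberField K]

/-- a summable function on the primes, with the weights `N(v)^{-1-ε}` -/
def Sm (ε : ℝ) (φ : HeightOneSpectrum (𝓞 K) → ℝ) : Prop :=
  Summable fun v => φ v * (nm K v : ℝ) ^ (-(1 + ε))

theorem EV_def (ε : ℝ) (φ : HeightOneSpectrum (𝓞 K) → ℝ) :
    EV K ε φ = ∑' v, φ v * (nm K v : ℝ) ^ (-(1 + ε)) := rfl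

theorem wt_nonneg (ε : ℝ) (v : HeightOneSpectrum (𝓞 K)) : 0 ≤ (nm K v : ℝ) ^ (-(1 + ε)) := by
  positivity

theorem Sm.add {ε : ℝ} {φ ψ : HeightOneSpectrum (𝓞 K) → ℝ} (hφ : Sm ε φ) (hψ : Sm ε ψ) :
    Sm ε fun v => φ v + ψ v := by
  unfold Sm at *
  simpa only [add_mul] using hφ.add hψ

theorem Sm.const_mul {ε : ℝ} {φ : HeightOneSpectrum (𝓞 K) → ℝ} (hφ : Sm ε φ) (c : ℝ) :
    Sm ε fun v => c * φ v := by
  unfold Sm at *
  simpa only [mul_assoc] using hφ.mul_left c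

theorem Sm.sum {ε : ℝ} {κ : Type*} (T : Finset κ) {φ : κ → HeightOneSpectrum (𝓞 K) → ℝ}
    (hφ : ∀ k ∈ T, Sm ε (φ k)) : Sm ε fun v => ∑ k ∈ T, φ k v := by
  unfold Sm at *
  simpa only [Finset.sum_mul] using summable_sum hφ

theorem Sm.mono {ε : ℝ} {φ ψ : HeightOneSpectrum (𝓞 K) → ℝ} (hψ : Sm ε ψ)
    (h : ∀ v, |φ v| ≤ ψ v) : Sm ε φ := by
  unfold Sm at *
  refine Summable.of_norm_bounded hψ fun v => ?_
  rw [Real.norm_eq_abs, abs_mul, abs_of_nonneg (wt_nonneg ε v)]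
  exact mul_le_mul_of_nonneg_right (h v) (wt_nonneg ε v)

theorem Sm.one {ε : ℝ} (hε : 0 < ε) : Sm ε fun _ : HeightOneSpectrum (𝓞 K) => (1 : ℝ) := by
  unfold Sm
  simpa using (normSys (F := K)).summable (-(1 + ε)) (by linarith)

theorem Sm.bdd {ε : ℝ} (hε : 0 < ε) {φ : HeightOneSpectrum (𝓞 K) → ℝ} {b : ℝ}
    (h : ∀ v, |φ v| ≤ b) : Sm ε φ :=
  ((Sm.one hε).const_mul b).mono fun v => by rw [mul_one]; exact h v

theorem EV_add' {ε : ℝ} {φ ψ : HeightOneSpectrum (𝓞 K) → ℝ} (hφ : Sm ε φ) (hψ : Sm ε ψ) :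
    EV K ε (fun v => φ v + ψ v) = EV K ε φ + EV K ε ψ := by
  rw [EV_def, EV_def, EV_def, ← Summable.tsum_add hφ hψ]
  exact tsum_congr fun v => by ring

theorem EV_const_mul' {ε : ℝ} (c : ℝ) (φ : HeightOneSpectrum (𝓞 K) → ℝ) :
    EV K ε (fun v => c * φ v) = c * EV K ε φ := by
  rw [EV_def, EV_def, ← tsum_mul_left]
  exact tsum_congr fun v => by ring

theorem EV_sum' {ε : ℝ} {κ : Type*} (T : Finset κ) {φ : κ → HeightOneSpectrum (𝓞 K) → ℝ}
    (hφ : ∀ k ∈ T, Sm ε (φ k)) : EV K ε (fun v => ∑ k ∈ T, φ k v) = ∑ k ∈ T, EV K ε (φ k) := by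
  simp only [EV_def]
  rw [← Summable.tsum_finsetSum hφ]
  exact tsum_congr fun v => by rw [Finset.sum_mul]

theorem EV_mono' {ε : ℝ} {φ ψ : HeightOneSpectrum (𝓞 K) → ℝ} (hφ : Sm ε φ) (hψ : Sm ε ψ)
    (h : ∀ v, φ v ≤ ψ v) : EV K ε φ ≤ EV K ε ψ := by
  rw [EV_def, EV_def]
  exact Summable.tsum_le_tsum (fun v => mul_le_mul_of_nonneg_right (h v) (wt_nonneg ε v)) hφ hψ

theorem EV_nonneg' {ε : ℝ} {φ : HeightOneSpectrum (𝓞 K) → ℝ} (h : ∀ v, 0 ≤ φ v) :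
    0 ≤ EV K ε φ :=
  tsum_nonneg fun v => mul_nonneg (h v) (wt_nonneg ε v)

/-- the real inner product -/
noncomputable def ip (ε : ℝ) (f g : HeightOneSpectrum (𝓞 K) → ℂ) : ℝ :=
  EV K ε fun v => (f v * conj (g v)).re

/-- a square summable function -/
def L2 (ε : ℝ) (f : HeightOneSpectrum (𝓞 K) → ℂ) : Prop := Sm ε fun v => ‖f v‖ ^ 2

theorem abs_re_mul_le (x y : ℂ) {t : ℝ} (ht : 0 < t) :
    2 * |(x * conj y).re| ≤ t * ‖x‖ ^ 2 + t⁻¹ * ‖y‖ ^ 2 := by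
  have h1 : |(x * conj y).re| ≤ ‖x‖ * ‖y‖ := by
    refine (Complex.abs_re_le_norm _).trans ?_
    rw [norm_mul, Complex.norm_conj]
  have h2 : 0 ≤ (t * ‖x‖ - ‖y‖) ^ 2 := sq_nonneg _
  have h3 : t * ‖x‖ ^ 2 + t⁻¹ * ‖y‖ ^ 2 - 2 * (‖x‖ * ‖y‖) = t⁻¹ * (t * ‖x‖ - ‖y‖) ^ 2 := by
    field_simp
    ring
  have h4 : 0 ≤ t⁻¹ * (t * ‖x‖ - ‖y‖) ^ 2 := mul_nonneg (inv_nonneg.2 ht.le) h2
  linarith

theorem L2.mul {ε : ℝ} {f g : HeightOneSpectrum (𝓞 K) → ℂ} (hf : L2 ε f) (hg : L2 ε g) :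
    Sm ε fun v => (f v * conj (g v)).re := by
  refine (Sm.add hf hg).mono fun v => ?_
  have h := abs_re_mul_le (f v) (g v) one_pos
  have h1 : 0 ≤ |(f v * conj (g v)).re| := abs_nonneg _
  rw [inv_one, one_mul, one_mul] at h
  linarith

theorem L2.bdd {ε : ℝ} (hε : 0 < ε) {g : HeightOneSpectrum (𝓞 K) → ℂ} {b : ℝ}
    (h : ∀ v, ‖g v‖ ≤ b) : L2 ε g :=
  Sm.bdd hε (b := b ^ 2) fun v => by
    rw [abs_of_nonneg (sq_nonneg _)]
    exact pow_le_pow_left₀ (norm_nonneg _) (h v) 2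

theorem ip_two {ε : ℝ} {f g : HeightOneSpectrum (𝓞 K) → ℂ} (hf : L2 ε f) (hg : L2 ε g) {t : ℝ}
    (ht : 0 < t) : 2 * |ip ε f g| ≤ t * EV K ε (fun v => ‖f v‖ ^ 2) +
      t⁻¹ * EV K ε (fun v => ‖g v‖ ^ 2) := by
  have key : ∀ s : ℝ, |s| = 1 → 2 * (s * ip ε f g) ≤ t * EV K ε (fun v => ‖f v‖ ^ 2) +
      t⁻¹ * EV K ε (fun v => ‖g v‖ ^ 2) := by
    intro s hs
    unfold ip
    rw [← EV_const_mul', ← EV_const_mul', ← EV_const_mul', ← EV_const_mul',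
      ← EV_add' (Sm.const_mul hf t) (Sm.const_mul hg t⁻¹)]
    refine EV_mono' (((L2.mul hf hg).const_mul s).const_mul 2)
      ((Sm.const_mul hf t).add (Sm.const_mul hg t⁻¹)) fun v => ?_
    have h1 := abs_re_mul_le (f v) (g v) ht
    have h2 : s * (f v * conj (g v)).re ≤ |(f v * conj (g v)).re| := by
      refine (le_abs_self _).trans ?_
      rw [abs_mul, hs, one_mul]
    linarith
  rcases abs_cases (ip ε f g) with ⟨h, -⟩ | ⟨h, -⟩
  · rw [h]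
    have := key 1 abs_one
    rwa [one_mul] at this
  · rw [h]
    have := key (-1) (by rw [abs_neg, abs_one])
    rwa [neg_one_mul] at this

section tr1

open Classical in
/-- the trace at the primes of degree one -/
noncomputable def tr1 (σ : WRep K) (v : HeightOneSpectrum (𝓞 K)) : ℂ :=
  if v ∈ Set.range (vx (K := K)) then σ.trace v else 0

theorem tr1_vx (σ : WRep K) (x : HX K) : tr1 σ (vx x) = σ.tH x := by
  unfold tr1
  rw [if_pos ⟨x, rfl⟩, WRep.trace_vx]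

theorem norm_tr1_le (σ : WRep K) (v : HeightOneSpectrum (𝓞 K)) : ‖tr1 σ v‖ ≤ σ.bd := by
  unfold tr1
  split_ifs with h
  · obtain ⟨x, rfl⟩ := h
    rw [WRep.trace_vx]
    exact σ.norm_tH_le x
  · rw [norm_zero]
    exact σ.bd_nonneg

theorem tr1_L2 {ε : ℝ} (hε : 0 < ε) (σ : WRep K) : L2 ε (tr1 σ) := L2.bdd hε (norm_tr1_le σ)

/-- **The inner product as a mean value.** -/
theorem gram1 (ρ σ : WRep K) :
    (fun ε => ip ε (tr1 ρ) (tr1 σ) - ρ.inner σ * LL ε) =o[𝓝[>] 0] LL := by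
  have hQ : StNvq := Pool.Agent.N134.HS.t_nvq
  have h1 := WRep.gram hQ ρ σ
  have hb : ∀ v, |(tr1 ρ v * conj (tr1 σ v)).re| ≤ ρ.bd * σ.bd := fun v => by
    refine (Complex.abs_re_le_norm _).trans ?_
    rw [norm_mul, Complex.norm_conj]
    exact mul_le_mul (norm_tr1_le ρ v) (norm_tr1_le σ v) (norm_nonneg _) ρ.bd_nonneg
  have h2 : (fun ε => ip ε (tr1 ρ) (tr1 σ) -
      EH K ε (fun x => (ρ.tH x * conj (σ.tH x)).re)) =o[𝓝[>] 0] LL := by
    apply bdd_isLittleO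
    refine ⟨ρ.bd * σ.bd * Module.finrank ℚ K * Pool.Agent.H921R2.TatePole.C0, ?_⟩
    filter_upwards [self_mem_nhdsWithin] with ε hε
    have h3 := EV_EH hb (show (0 : ℝ) < ε from hε)
    simp only [tr1_vx] at h3
    exact h3
  refine (h2.add h1).congr_left fun ε => ?_
  ring

open Classical in
/-- the primes which are not of degree one -/
noncomputable def off1 (v : HeightOneSpectrum (𝓞 K)) : ℝ :=
  if v ∈ Set.range (vx (K := K)) then 0 else 1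

theorem off1_nonneg (v : HeightOneSpectrum (𝓞 K)) : 0 ≤ off1 v := by
  unfold off1
  split_ifs <;> norm_num

theorem off1_le (v : HeightOneSpectrum (𝓞 K)) : off1 v ≤ 1 := by
  unfold off1
  split_ifs <;> norm_num

theorem off1_sum : ∃ C : ℝ, 0 ≤ C ∧ ∀ ε : ℝ, 0 < ε → EV K ε off1 ≤ C := by
  refine ⟨|1 * Module.finrank ℚ K * Pool.Agent.H921R2.TatePole.C0|, abs_nonneg _, fun ε hε => ?_⟩
  have h1 := EV_EH (K := K) (g := off1) (C := 1)
    (fun v => by rw [abs_of_nonneg (off1_nonneg v)]; exact off1_le v) hε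
  have h2 : (fun x : HX K => off1 (vx x)) = fun x => 0 * (1 : ℝ) := by
    funext x
    unfold off1
    rw [if_pos ⟨x, rfl⟩, zero_mul]
  rw [h2, EH_const_mul, zero_mul, sub_zero] at h1
  exact (le_abs_self _).trans (h1.trans (le_abs_self _))

end tr1

end Pool.Agent.V8H25.Lang
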