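import Pool.Agent.V8H25.Lang.Bessel

/-!
# The governing representation of an Euler product
-/

set_option autoImplicit false
set_option linter.unusedSectionVars false

namespace Pool.Agent.V8H25.Lang

open NumberField Complex Filter Topology IsDedekindDomain Asymptotics Polynomial
open Pool.Agent.N172.HS
open Pool.Agent.W353.EF (LFun)
open Pool.Agent.W353.TP (HX sysH LL LL_tendsto bdd_isLittleO lamS_sub)
open Pool.Agent.W353.NF (vx)
open Pool.Agent.W540.BE (nm two_le_nm EP normSys)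
open Pool.Agent.W353.EH (edgePoint size)
open Pool.Agent.V8H25.Gov (shift shift_trace shift_irr comb comb_tH inner_comb irr_dichotomy HasOrder
  hasOrder_tendsto)
open scoped ComplexConjugate

variable {K : Type} [Field K] [NumberField K] {m : ℕ}
  {S : Finset (HeightOneSpectrum (𝓞 K))}
  {M : HeightOneSpectrum (𝓞 K) → Matrix (Fin m) (Fin m) ℂ} {C : ℝ}

theorem comb_tr1 {n : ℕ} (r : Fin n → ℤ) (σ : Fin n → WRep K) (v : HeightOneSpectrum (𝓞 K)) :
    tr1 (comb r σ) v = ∑ k, ((r k : ℝ) : ℂ) * tr1 (σ k) v := by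
  by_cases h : v ∈ Set.range (vx (K := K))
  · obtain ⟨x, rfl⟩ := h
    rw [tr1_vx, comb_tH]
    refine Finset.sum_congr rfl fun k _ => ?_
    rw [tr1_vx]
    push_cast
    rfl
  · unfold tr1
    rw [if_neg h]
    refine (Finset.sum_eq_zero fun k _ => ?_).symm
    rw [if_neg h, mul_zero]

/-- equal up to the sign: the means agree -/
theorem mean_sign (h : RankinSelberg S M C) {ρ σ : WRep K} (hρ : ρ.IsIrr) (hσ : σ.IsIrr)
    (hs : ρ.inner σ ≠ 0) :
    Tendsto (fun ε => mean S M ρ ε - (ρ.inner σ : ℝ) * mean S M σ ε) (𝓝[>] 0) (𝓝 0) := by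
  obtain ⟨h1, -⟩ := irr_dichotomy hρ hσ hs
  set s : ℤ := ρ.inner σ with hs'
  have hss : (s : ℝ) * s = 1 := by
    rcases h1 with h1 | h1 <;> rw [h1] <;> norm_num
  set g : HeightOneSpectrum (𝓞 K) → ℂ := fun v => tr1 ρ v - ∑ k : Fin 1, ((s : ℝ) : ℂ) *
    (fun _ : Fin 1 => tr1 σ) k v with hg
  have hC := h.nonneg
  -- the norm of `g`
  have h2 : Tendsto (fun ε => (ip ε (tr1 ρ) (tr1 ρ) / LL ε + (-2) * (s *
      (ip ε (tr1 ρ) (tr1 σ) / LL ε))) + s * s * (ip ε (tr1 σ) (tr1 σ) / LL ε)) (𝓝[>] 0)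
      (𝓝 (((ρ.inner ρ : ℤ) : ℝ) + (-2) * (s * (s : ℝ)) + s * s * ((σ.inner σ : ℤ) : ℝ))) :=
    ((gram_tendsto ρ ρ).add (((gram_tendsto ρ σ).const_mul _).const_mul _)).add
      ((gram_tendsto σ σ).const_mul _)
  have e1 : ρ.inner ρ = 1 := hρ
  have e2 : σ.inner σ = 1 := hσ
  have e3 : ((ρ.inner ρ : ℤ) : ℝ) + (-2) * (s * (s : ℝ)) + s * s * ((σ.inner σ : ℤ) : ℝ) = 0 := by
    rw [e1, e2, hss]
    norm_num
  rw [e3] at h2
  rw [Metric.tendsto_nhds]
  intro η hη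
  set t : ℝ := η / (2 * (C + 1)) with ht
  have ht0 : 0 < t := by positivity
  have ht1 : t * (C + 1) = η / 2 := by
    rw [ht]
    field_simp
  filter_upwards [h.bound one_pos, h2.eventually_lt_const (show (0 : ℝ) < t * (η / 2) by positivity),
    evLL, evPos] with ε g1 g2 g3 g4
  rw [Real.dist_eq, sub_zero]
  have hρL := tr1_L2 g4 ρ
  have hσL := tr1_L2 g4 σ
  obtain ⟨s1, s2⟩ := dist_expand hρL (κ := Fin 1) (g := fun _ => tr1 σ) (fun _ => hσL)
    (fun _ => (s : ℝ))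
  have e4 : EV K ε (fun v => ‖g v‖ ^ 2) = ((ip ε (tr1 ρ) (tr1 ρ) / LL ε + (-2) * (s *
      (ip ε (tr1 ρ) (tr1 σ) / LL ε))) + s * s * (ip ε (tr1 σ) (tr1 σ) / LL ε)) * LL ε := by
    have e5 : EV K ε (fun v => ‖tr1 ρ v‖ ^ 2) = ip ε (tr1 ρ) (tr1 ρ) := by
      unfold ip
      congr 1
      funext v
      rw [Complex.mul_conj, Complex.ofReal_re, Complex.normSq_eq_norm_sq]
    rw [hg]
    simp only
    rw [s2, e5]
    simp only [Finset.univ_unique, Finset.sum_singleton]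
    field_simp
  have hgL : L2 ε g := s1
  have h5 := ip_two g1.1 hgL ht0
  have h6 : EV K ε (fun v => ‖g v‖ ^ 2) ≤ t * (η / 2) * LL ε := by
    rw [e4]
    exact mul_le_mul_of_nonneg_right g2.le g3.le
  have e6 : ip ε (tf S M) g = ip ε (tf S M) (tr1 ρ) + (-s) * ip ε (tf S M) (tr1 σ) := by
    unfold ip
    rw [← EV_const_mul', ← EV_add' (L2.mul g1.1 hρL) ((L2.mul g1.1 hσL).const_mul _)]
    congr 1
    funext v
    rw [hg]
    simp only [Finset.univ_unique, Finset.sum_singleton]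
    rw [map_sub, map_mul, Complex.conj_ofReal, mul_sub]
    have e : tf S M v * (((s : ℝ) : ℂ) * conj (tr1 σ v)) =
      ((s : ℝ) : ℂ) * (tf S M v * conj (tr1 σ v)) := by ring
    rw [e, Complex.sub_re, Complex.re_ofReal_mul]
    ring
  have e7 : mean S M ρ ε - (s : ℝ) * mean S M σ ε = ip ε (tf S M) g / LL ε := by
    rw [e6]
    unfold mean
    ring
  rw [e7, abs_div, abs_of_pos g3, div_lt_iff₀ g3]
  have h7 : t⁻¹ * EV K ε (fun v => ‖g v‖ ^ 2) ≤ η / 2 * LL ε := by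
    have h8 := mul_le_mul_of_nonneg_left h6 (inv_nonneg.2 ht0.le)
    refine h8.trans (le_of_eq ?_)
    field_simp
  have h9 : t * EV K ε (fun v => ‖tf S M v‖ ^ 2) ≤ η / 2 * LL ε := by
    have h8 := mul_le_mul_of_nonneg_left g1.2 ht0.le
    rw [← mul_assoc, ht1] at h8
    exact h8
  have h10 : 0 < η * LL ε := mul_pos hη g3
  linarith

/-- **The governing representation.** -/
theorem governing (h : RankinSelberg S M C) :
    ∃ θ : WRep K,
      (∀ ρ : WRep K, ρ.IsIrr → ∀ r : ℤ, Tendsto (mean S M ρ) (𝓝[>] 0) (𝓝 (r : ℝ)) →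
        r = ρ.inner θ) ∧
      (∀ η : ℝ, 0 < η → ∀ᶠ ε : ℝ in 𝓝[>] 0, (Sm ε fun v => ‖tf S M v - tr1 θ v‖ ^ 2) ∧
        EV K ε (fun v => ‖tf S M v - tr1 θ v‖ ^ 2) ≤ (C - θ.inner θ + η) * LL ε) ∧
      ∃ (n : ℕ) (σ : Fin n → WRep K) (r : Fin n → ℤ), θ = comb r σ ∧ ∀ k, (σ k).IsIrr ∧ r k ≠ 0 ∧
        Tendsto (mean S M (σ k)) (𝓝[>] 0) (𝓝 (r k : ℝ)) := by
  classical
  obtain ⟨n, σ, -, h2, h3, h4⟩ := exists_max (W := WRep K)
    (fun ρ => ρ.IsIrr ∧ ∃ r : ℤ, r ≠ 0 ∧ Tendsto (mean S M ρ) (𝓝[>] 0) (𝓝 (r : ℝ)))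
    (fun ρ σ => ρ.inner σ = 0) (fun ρ σ h => by rw [WRep.inner_comm]; exact h)
    ⌊C⌋₊ (by
      intro n σ hbad horth
      choose hirr r hr0 hr using hbad
      have h5 := bessel_lim h hirr horth hr
      refine Nat.le_floor ?_
      refine le_trans ?_ h5
      calc (n : ℝ) = ∑ _k : Fin n, (1 : ℝ) := by simp
        _ ≤ ∑ k, (r k : ℝ) ^ 2 := Finset.sum_le_sum fun k _ => by
          have h6 : 0 < r k ^ 2 := by
            have := hr0 k
            positivity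
          have h7 : (1 : ℤ) ≤ r k ^ 2 := by omega
          exact_mod_cast h7)
  choose hirr r hr0 hr using h2
  have hself : ∀ k, (σ k).inner (comb r σ) = r k := by
    intro k
    rw [inner_comb, Finset.sum_eq_single k]
    · have : (σ k).inner (σ k) = 1 := hirr k
      rw [this, mul_one]
    · intro l _ hl
      rw [h3 k l hl.symm, mul_zero]
    · intro h; exact absurd (Finset.mem_univ k) h
  have hnorm : (comb r σ).inner (comb r σ) = ∑ k, r k ^ 2 := by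
    rw [inner_comb]
    refine Finset.sum_congr rfl fun k _ => ?_
    rw [WRep.inner_comm, hself]
    ring
  refine ⟨comb r σ, fun ρ hρ r' hr' => ?_, fun η hη => ?_, n, σ, r, rfl,
    fun k => ⟨hirr k, hr0 k, hr k⟩⟩
  · by_cases hort : ∀ k, ρ.inner (σ k) = 0
    · have h5 := h4 ρ hort
      have h6 : r' = 0 := by
        by_contra hcon
        exact h5 ⟨hρ, r', hcon, hr'⟩
      rw [h6, inner_comb]
      exact (Finset.sum_eq_zero fun k _ => by rw [hort k, mul_zero]).symm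
    · push Not at hort
      obtain ⟨k, hk⟩ := hort
      have h5 := mean_sign h hρ (hirr k) hk
      have h6 := hr'.sub ((hr k).const_mul (ρ.inner (σ k) : ℝ))
      have h7 := tendsto_nhds_unique h5 h6
      have h8 : (r' : ℝ) = ((ρ.inner (σ k) * r k : ℤ) : ℝ) := by
        push_cast
        linarith
      have h9 : r' = ρ.inner (σ k) * r k := by exact_mod_cast h8
      rw [h9, (irr_dichotomy hρ (hirr k) hk).2 (comb r σ), hself]
  · have h5 := dist_bound h hirr h3 hr hη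
    have e1 : (((comb r σ).inner (comb r σ) : ℤ) : ℝ) = ∑ k, (r k : ℝ) ^ 2 := by
      rw [hnorm]
      push_cast
      rfl
    rw [e1]
    filter_upwards [h5] with ε h6
    have e2 : (fun v => ‖tf S M v - tr1 (comb r σ) v‖ ^ 2) =
        fun v => ‖tf S M v - ∑ k, (((r k : ℝ)) : ℂ) * tr1 (σ k) v‖ ^ 2 := by
      funext v
      rw [comb_tr1]
    rw [e2]
    exact h6

/-- the norm is at most the constant -/
theorem norm_le {θ : WRep K} (h : ∀ η : ℝ, 0 < η → ∀ᶠ ε : ℝ in 𝓝[>] 0,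
      (Sm ε fun v => ‖tf S M v - tr1 θ v‖ ^ 2) ∧
        EV K ε (fun v => ‖tf S M v - tr1 θ v‖ ^ 2) ≤ (C - θ.inner θ + η) * LL ε) :
    ((θ.inner θ : ℤ) : ℝ) ≤ C := by
  refine le_of_forall_pos_le_add fun η hη => ?_
  obtain ⟨ε, h1, h2⟩ := ((h η hη).and evLL).exists
  have h3 : 0 ≤ (C - θ.inner θ + η) * LL ε := (EV_nonneg' fun v => sq_nonneg _).trans h1.2
  have h4 := nonneg_of_mul_nonneg_left h3 h2
  linarith

/-- **The exceptional representations.** -/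
theorem exceptional (h : RankinSelberg S M C) {δ : ℝ} (hδ : 0 < δ) :
    ∃ (n : ℕ) (σ : Fin n → WRep K), n * δ ^ 2 ≤ C ∧ (∀ k, (σ k).IsIrr) ∧
      (∀ k l, k ≠ l → (σ k).inner (σ l) = 0) ∧
      ∀ ρ : WRep K, ρ.IsIrr → (∀ k, ρ.inner (σ k) = 0) →
        ∃ δ' < δ, ∃ᶠ ε : ℝ in 𝓝[>] 0, |mean S M ρ ε| < δ' := by
  have key : ∀ (n : ℕ) (σ : Fin n → WRep K),
      (∀ k, (σ k).IsIrr ∧ ∀ δ' < δ, ∀ᶠ ε : ℝ in 𝓝[>] 0, δ' ≤ |mean S M (σ k) ε|) →
      (∀ k l, k ≠ l → (σ k).inner (σ l) = 0) → n * δ ^ 2 ≤ C := by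
    intro n σ hbad horth
    have h1 : ∀ᶠ δ' in 𝓝[<] δ, n * δ' ^ 2 ≤ C := by
      filter_upwards [Ioo_mem_nhdsLT hδ] with δ' hδ'
      have h2 := bessel_large h (fun k => (hbad k).1) horth hδ'.1.le
        (fun k => (hbad k).2 δ' hδ'.2)
      rwa [Fintype.card_fin] at h2
    have h3 : Tendsto (fun δ' : ℝ => n * δ' ^ 2) (𝓝[<] δ) (𝓝 (n * δ ^ 2)) :=
      tendsto_nhdsWithin_of_tendsto_nhds ((tendsto_id.pow 2).const_mul _)
    exact le_of_tendsto h3 h1
  obtain ⟨n, σ, -, h2, h3, h4⟩ := exists_max (W := WRep K)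
    (fun ρ => ρ.IsIrr ∧ ∀ δ' < δ, ∀ᶠ ε : ℝ in 𝓝[>] 0, δ' ≤ |mean S M ρ ε|)
    (fun ρ σ => ρ.inner σ = 0) (fun ρ σ h => by rw [WRep.inner_comm]; exact h)
    ⌊C / δ ^ 2⌋₊ (by
      intro n σ hbad horth
      refine Nat.le_floor ?_
      rw [le_div_iff₀ (by positivity)]
      exact key n σ hbad horth)
  refine ⟨n, σ, key n σ h2 h3, fun k => (h2 k).1, h3, fun ρ hρ hort => ?_⟩
  have h5 := h4 ρ hort
  rw [not_and] at h5
  have h6 := h5 hρ
  push Not at h6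
  obtain ⟨δ', hδ', h7⟩ := h6
  exact ⟨δ', hδ', h7.mono fun ε h8 => h8⟩

end Pool.Agent.V8H25.Lang
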