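import Pool.Agent.V8H25.Lang.Defs

/-!
# Consequences of the condition of Rankin and Selberg
-/

set_option autoImplicit false
set_option linter.unusedSectionVars false

namespace Pool.Agent.V8H25.Lang

open NumberField Complex Filter Topology IsDedekindDomain Asymptotics Polynomial
open Pool.Agent.N172.HS
open Pool.Agent.W353.EF (LFun)
open Pool.Agent.W353.TP (HX sysH LL LL_tendsto bdd_isLittleO lamS_sub)
open Pool.Agent.W353.NF (vx)
open Pool.Agent.W540.BE (nm two_le_nm EP normSys)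
open Pool.Agent.W353.EH (edgePoint)
open Pool.Agent.V8H25.Gov (shift)
open scoped ComplexConjugate

variable {K : Type} [Field K] [NumberField K] {m : ℕ}
  {S : Finset (HeightOneSpectrum (𝓞 K))}
  {M : HeightOneSpectrum (𝓞 K) → Matrix (Fin m) (Fin m) ℂ} {C : ℝ}

open Classical in
/-- the trace outside `S` -/
noncomputable def tf (S : Finset (HeightOneSpectrum (𝓞 K)))
    (M : HeightOneSpectrum (𝓞 K) → Matrix (Fin m) (Fin m) ℂ)
    (v : HeightOneSpectrum (𝓞 K)) : ℂ := if v ∈ S then 0 else (M v).trace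

open Classical in
/-- the trace of the square outside `S` -/
noncomputable def tf2 (S : Finset (HeightOneSpectrum (𝓞 K)))
    (M : HeightOneSpectrum (𝓞 K) → Matrix (Fin m) (Fin m) ℂ)
    (v : HeightOneSpectrum (𝓞 K)) : ℂ := if v ∈ S then 0 else (M v ^ 2).trace

theorem nm_pos (v : HeightOneSpectrum (𝓞 K)) : (0 : ℝ) < nm K v := by
  have := two_le_nm v
  exact_mod_cast (by omega : 0 < nm K v)

theorem one_le_nm (v : HeightOneSpectrum (𝓞 K)) : (1 : ℝ) ≤ nm K v := by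
  have := two_le_nm v
  exact_mod_cast (by omega : 1 ≤ nm K v)

theorem two_le_nm' (v : HeightOneSpectrum (𝓞 K)) : (2 : ℝ) ≤ nm K v := by
  exact_mod_cast two_le_nm v

/-- all the finite sums -/
theorem RankinSelberg.finite (h : RankinSelberg S M C) {η : ℝ} (hη : 0 < η) :
    ∀ᶠ ε : ℝ in 𝓝[>] 0, ∀ T : Finset (HeightOneSpectrum (𝓞 K)),
      ∑ v ∈ T, (‖tf S M v‖ ^ 2 * (nm K v : ℝ) ^ (-(1 + ε)) +
        ‖tf2 S M v‖ ^ 2 / 2 * (nm K v : ℝ) ^ (-(2 * (1 + ε)))) ≤ (C + η) * LL ε := by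
  classical
  filter_upwards [h.2 η hη] with ε h1 T
  have h2 := h1 (T \ S) 2 (Finset.sdiff_disjoint)
  have h3 : ∑ v ∈ T, (‖tf S M v‖ ^ 2 * (nm K v : ℝ) ^ (-(1 + ε)) +
        ‖tf2 S M v‖ ^ 2 / 2 * (nm K v : ℝ) ^ (-(2 * (1 + ε)))) =
      ∑ v ∈ T \ S, ∑ k ∈ Finset.Icc 1 (2 : ℕ),
      ‖(M v ^ k).trace‖ ^ 2 / k * (Ideal.absNorm v.asIdeal : ℝ) ^ (-(k * (1 + ε))) := by
    rw [← Finset.sum_filter_add_sum_filter_not T (fun v => v ∈ S)]
    have e1 : ∑ v ∈ T.filter (fun v => v ∈ S), (‖tf S M v‖ ^ 2 * (nm K v : ℝ) ^ (-(1 + ε)) +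
        ‖tf2 S M v‖ ^ 2 / 2 * (nm K v : ℝ) ^ (-(2 * (1 + ε)))) = 0 := by
      refine Finset.sum_eq_zero fun v hv => ?_
      rw [Finset.mem_filter] at hv
      unfold tf tf2
      rw [if_pos hv.2, if_pos hv.2]
      norm_num
    have e2 : T.filter (fun v => ¬ v ∈ S) = T \ S := by
      ext v
      simp
    rw [e1, zero_add, e2]
    refine Finset.sum_congr rfl fun v hv => ?_
    rw [Finset.mem_sdiff] at hv
    have e3 : Finset.Icc 1 (2 : ℕ) = {1, 2} := rfl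
    rw [e3, Finset.sum_pair (by norm_num)]
    unfold tf tf2
    rw [if_neg hv.2, if_neg hv.2, pow_one]
    push_cast
    rw [div_one, one_mul]
    rfl
  rw [h3]
  exact h2

theorem RankinSelberg.bound (h : RankinSelberg S M C) {η : ℝ} (hη : 0 < η) :
    ∀ᶠ ε : ℝ in 𝓝[>] 0, L2 ε (tf S M) ∧ EV K ε (fun v => ‖tf S M v‖ ^ 2) ≤ (C + η) * LL ε := by
  filter_upwards [h.finite hη] with ε h1
  have h0 : ∀ v, 0 ≤ ‖tf S M v‖ ^ 2 * (nm K v : ℝ) ^ (-(1 + ε)) := fun v => by positivity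
  have h2 : ∀ T : Finset (HeightOneSpectrum (𝓞 K)),
      ∑ v ∈ T, ‖tf S M v‖ ^ 2 * (nm K v : ℝ) ^ (-(1 + ε)) ≤ (C + η) * LL ε := fun T =>
    (Finset.sum_le_sum fun v _ => le_add_of_nonneg_right (by positivity)).trans (h1 T)
  have hs : Summable fun v => ‖tf S M v‖ ^ 2 * (nm K v : ℝ) ^ (-(1 + ε)) :=
    summable_of_sum_le h0 h2
  exact ⟨hs, hs.tsum_le_of_sum_le h2⟩

theorem RankinSelberg.bound2 (h : RankinSelberg S M C) :
    ∀ᶠ ε : ℝ in 𝓝[>] 0, Summable (fun v => ‖tf2 S M v‖ ^ 2 * (nm K v : ℝ) ^ (-(2 * (1 + ε)))) ∧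
      ∑' v, ‖tf2 S M v‖ ^ 2 * (nm K v : ℝ) ^ (-(2 * (1 + ε))) ≤ 2 * (C + 1) * LL ε := by
  filter_upwards [h.finite one_pos] with ε h1
  have h0 : ∀ v, 0 ≤ ‖tf2 S M v‖ ^ 2 * (nm K v : ℝ) ^ (-(2 * (1 + ε))) := fun v => by positivity
  have h2 : ∀ T : Finset (HeightOneSpectrum (𝓞 K)),
      ∑ v ∈ T, ‖tf2 S M v‖ ^ 2 * (nm K v : ℝ) ^ (-(2 * (1 + ε))) ≤ 2 * (C + 1) * LL ε := by
    intro T
    have h3 : ∑ v ∈ T, ‖tf2 S M v‖ ^ 2 / 2 * (nm K v : ℝ) ^ (-(2 * (1 + ε))) ≤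
        (C + 1) * LL ε :=
      (Finset.sum_le_sum fun v _ => le_add_of_nonneg_left (by positivity)).trans (h1 T)
    have h4 : ∑ v ∈ T, ‖tf2 S M v‖ ^ 2 * (nm K v : ℝ) ^ (-(2 * (1 + ε))) =
        2 * ∑ v ∈ T, ‖tf2 S M v‖ ^ 2 / 2 * (nm K v : ℝ) ^ (-(2 * (1 + ε))) := by
      rw [Finset.mul_sum]
      exact Finset.sum_congr rfl fun v _ => by ring
    rw [h4]
    linarith
  have hs := summable_of_sum_le h0 h2
  exact ⟨hs, hs.tsum_le_of_sum_le h2⟩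

/-- the constant is nonnegative -/
theorem RankinSelberg.nonneg (h : RankinSelberg S M C) : 0 ≤ C := by
  refine le_of_forall_pos_le_add fun η hη => ?_
  obtain ⟨ε, h1, h2⟩ := ((h.bound hη).and (LL_tendsto.eventually_gt_atTop 0)).exists
  have h3 : 0 ≤ (C + η) * LL ε := (EV_nonneg' fun v => sq_nonneg _).trans h1.2
  exact nonneg_of_mul_nonneg_left h3 h2

end Pool.Agent.V8H25.Lang
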