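import Pool.Agent.V8H25.Lang.RS

/-!
# The size of the twisted L-function
-/

set_option autoImplicit false
set_option linter.unusedSectionVars false

namespace Pool.Agent.V8H25.Lang

open NumberField Complex Filter Topology IsDedekindDomain Asymptotics Polynomial
open Pool.Agent.N172.HS
open Pool.Agent.W353.EF (LFun)
open Pool.Agent.W353.TP (HX sysH LL LL_tendsto bdd_isLittleO lamS_sub)
open Pool.Agent.W353.NF (vx)
open Pool.Agent.W540.BE (nm two_le_nm EP normSys)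
open Pool.Agent.W353.EH (edgePoint)
open Pool.Agent.V8H25.Gov (shift shift_trace)
open scoped ComplexConjugate

variable {K : Type} [Field K] [NumberField K] {m : ℕ}
  {S : Finset (HeightOneSpectrum (𝓞 K))}
  {M : HeightOneSpectrum (𝓞 K) → Matrix (Fin m) (Fin m) ℂ} {C : ℝ}

section point

variable (τ ε : ℝ) (v : HeightOneSpectrum (𝓞 K))

/-- the number `q_v^{-(1 + iτ + ε)}` -/
noncomputable def xx : ℂ := ((nm K v : ℕ) : ℂ) ^ (-(edgePoint 0 τ + ε))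

theorem xx_eq : xx τ ε v = ((nm K v : ℕ) : ℂ) ^ (-(τ * I)) *
    (((nm K v : ℝ) ^ (-(1 + ε)) : ℝ) : ℂ) := by
  have hq : ((nm K v : ℕ) : ℂ) ≠ 0 := by exact_mod_cast (nm_pos v).ne'
  unfold xx edgePoint
  rw [Complex.ofReal_cpow (nm_pos v).le, Complex.ofReal_natCast, ← Complex.cpow_add _ _ hq]
  congr 1
  push_cast
  ring

theorem norm_xx : ‖xx τ ε v‖ = (nm K v : ℝ) ^ (-(1 + ε)) := by
  unfold xx edgePoint
  rw [Complex.norm_natCast_cpow_of_pos (by exact_mod_cast nm_pos v)]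
  congr 1
  simp

theorem norm_xx_sq : ‖xx τ ε v‖ ^ 2 = (nm K v : ℝ) ^ (-(2 * (1 + ε))) := by
  rw [norm_xx, ← Real.rpow_natCast, ← Real.rpow_mul (nm_pos v).le]
  congr 1
  push_cast
  ring

end point

/-- the size of the arguments of the logarithms -/
theorem arg_le {ε : ℝ} (hε : 0 < ε) {q : ℝ} (hq : 2 ≤ q) {x : ℂ} {a : ℂ}
    (hx : ‖x‖ = q ^ (-(1 + ε))) (ha : ‖a‖ ^ 2 ≤ q) :
    ‖a * x‖ ≤ q ^ (-(1 / 2) : ℝ) ∧ ‖a * x‖ ≤ 3 / 4 ∧ ‖a * x‖ ^ 3 ≤ q ^ (-(3 / 2) : ℝ) := by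
  have hq0 : 0 < q := by linarith
  have h1 : ‖a‖ ≤ q ^ (1 / 2 : ℝ) := by
    rw [← Real.sqrt_eq_rpow]
    exact Real.le_sqrt_of_sq_le ha
  have h2 : ‖a * x‖ ≤ q ^ (-(1 / 2) : ℝ) := by
    rw [norm_mul, hx]
    calc ‖a‖ * q ^ (-(1 + ε)) ≤ q ^ (1 / 2 : ℝ) * q ^ (-1 : ℝ) := by
          refine mul_le_mul h1 ?_ (by positivity) (by positivity)
          exact Real.rpow_le_rpow_of_exponent_le (by linarith) (by linarith)
      _ = q ^ (-(1 / 2) : ℝ) := by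
          rw [← Real.rpow_add hq0]
          norm_num
  refine ⟨h2, ?_, ?_⟩
  · have h3 : ‖a * x‖ ^ 2 ≤ 1 / 2 := by
      calc ‖a * x‖ ^ 2 ≤ (q ^ (-(1 / 2) : ℝ)) ^ 2 := pow_le_pow_left₀ (norm_nonneg _) h2 2
        _ = q⁻¹ := by
          rw [← Real.rpow_natCast, ← Real.rpow_mul hq0.le]
          norm_num
          exact Real.rpow_neg_one q
        _ ≤ 1 / 2 := by
          rw [one_div]
          exact inv_anti₀ (by norm_num) hq
    nlinarith [norm_nonneg (a * x)]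
  · calc ‖a * x‖ ^ 3 ≤ (q ^ (-(1 / 2) : ℝ)) ^ 3 := pow_le_pow_left₀ (norm_nonneg _) h2 3
      _ = q ^ (-(3 / 2) : ℝ) := by
        rw [← Real.rpow_natCast, ← Real.rpow_mul hq0.le]
        norm_num

/-- the local factor -/
theorem local_factor {N : ℕ} {A : Matrix (Fin m) (Fin m) ℂ} {α : Fin m → ℂ} (hA : IsEig A α)
    {γ : Fin N → ℂ} (hγ : ∀ l, ‖γ l‖ = 1) {q : ℝ} (hq : 2 ≤ q) (hα : ∀ j, ‖α j‖ ^ 2 ≤ q)
    {ε : ℝ} (hε : 0 < ε) {x : ℂ} (hx : ‖x‖ = q ^ (-(1 + ε))) :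
    ∃ G : ℂ, cexp G = (∏ l, (1 - (x * γ l) • A).det)⁻¹ ∧
      ‖G - (A.trace * (∑ l, γ l) * x + (A ^ 2).trace * (∑ l, γ l ^ 2) * x ^ 2 / 2)‖ ≤
        2 * (N * m) * q ^ (-(3 / 2) : ℝ) := by
  have hb : ∀ l j, ‖γ l * α j * x‖ ≤ 3 / 4 ∧ ‖γ l * α j * x‖ ^ 3 ≤ q ^ (-(3 / 2) : ℝ) := by
    intro l j
    have h1 : ‖γ l * α j‖ ^ 2 ≤ q := by
      rw [norm_mul, hγ, one_mul]
      exact hα j
    exact ⟨(arg_le hε hq hx h1).2.1, (arg_le hε hq hx h1).2.2⟩
  refine ⟨∑ l, ∑ j, -Complex.log (1 - γ l * α j * x), ?_, ?_⟩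
  · rw [Complex.exp_sum, ← Finset.prod_inv_distrib]
    refine Finset.prod_congr rfl fun l _ => ?_
    rw [Complex.exp_sum, hA, ← Finset.prod_inv_distrib]
    refine Finset.prod_congr rfl fun j _ => ?_
    have hne : 1 - γ l * α j * x ≠ 0 := by
      intro h
      have h1 : γ l * α j * x = 1 := by linear_combination -h
      have h2 := (hb l j).1
      rw [h1, norm_one] at h2
      norm_num at h2
    rw [Complex.exp_neg, Complex.exp_log hne]
    congr 2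
    ring
  · have e1 : A.trace * (∑ l, γ l) * x + (A ^ 2).trace * (∑ l, γ l ^ 2) * x ^ 2 / 2 =
        ∑ l, ∑ j, (γ l * α j * x + (γ l * α j * x) ^ 2 / 2) := by
      have e2 : (∑ l, γ l) * (∑ j, α j) = ∑ l, ∑ j, γ l * α j := Finset.sum_mul_sum _ _ _ _
      have e3 : (∑ l, γ l ^ 2) * (∑ j, α j ^ 2) = ∑ l, ∑ j, γ l ^ 2 * α j ^ 2 :=
        Finset.sum_mul_sum _ _ _ _
      rw [hA.trace, hA.trace_sq]
      have e4 : (∑ j, α j) * (∑ l, γ l) * x + (∑ j, α j ^ 2) * (∑ l, γ l ^ 2) * x ^ 2 / 2 =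
          ((∑ l, γ l) * (∑ j, α j)) * x + ((∑ l, γ l ^ 2) * (∑ j, α j ^ 2)) * (x ^ 2 / 2) := by
        ring
      rw [e4, e2, e3, Finset.sum_mul, Finset.sum_mul, ← Finset.sum_add_distrib]
      refine Finset.sum_congr rfl fun l _ => ?_
      rw [Finset.sum_mul, Finset.sum_mul, ← Finset.sum_add_distrib]
      refine Finset.sum_congr rfl fun j _ => ?_
      ring
    rw [e1, ← Finset.sum_sub_distrib]
    refine (norm_sum_le _ _).trans ?_
    refine (Finset.sum_le_card_nsmul _ _ (2 * m * q ^ (-(3 / 2) : ℝ)) fun l _ => ?_).trans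
      (le_of_eq ?_)
    · rw [← Finset.sum_sub_distrib]
      refine (norm_sum_le _ _).trans ?_
      refine (Finset.sum_le_card_nsmul _ _ (2 * q ^ (-(3 / 2) : ℝ)) fun j _ => ?_).trans
        (le_of_eq ?_)
      · exact (log_factor (hb l j).1).trans (mul_le_mul_of_nonneg_left (hb l j).2 (by norm_num))
      · rw [Finset.card_univ, Fintype.card_fin, nsmul_eq_mul]
        ring
    · rw [Finset.card_univ, Fintype.card_fin, nsmul_eq_mul]
      ring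

theorem summable_nm {r : ℝ} (hr : r < -1) :
    Summable fun v : HeightOneSpectrum (𝓞 K) => (nm K v : ℝ) ^ r := (normSys (F := K)).summable r hr

end Pool.Agent.V8H25.Lang
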