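import Pool.Agent.V8H25.Lang.Main

/-!
# Tempered representations, and the final statements
-/

set_option autoImplicit false
set_option linter.unusedSectionVars false

namespace Pool.Agent.V8H25.Lang

open NumberField Complex Filter Topology IsDedekindDomain Asymptotics Polynomial
open Pool.Agent.N172.HS
open Pool.Agent.W353.EF (LFun)
open Pool.Agent.W353.TP (HX sysH LL LL_tendsto bdd_isLittleO lamS_sub)
open Pool.Agent.W353.NF (vx)
open Pool.Agent.H341R2 (sysK)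
open Pool.Agent.W540.BE (nm two_le_nm EP normSys)
open Pool.Agent.W353.EH (edgePoint size)
open Pool.Agent.V8H25.Gov (shift shift_trace shift_irr comb comb_tH inner_comb irr_dichotomy HasOrder
  hasOrder_tendsto)
open scoped ComplexConjugate

variable {K : Type} [Field K] [NumberField K] {m : ℕ}
  {S : Finset (HeightOneSpectrum (𝓞 K))}
  {M : HeightOneSpectrum (𝓞 K) → Matrix (Fin m) (Fin m) ℂ} {C : ℝ}

/-- the spectrum of a matrix and the factor -/
theorem det_of_spectrum {A : Matrix (Fin m) (Fin m) ℂ} {a : ℂ} (ha : a ≠ 0) :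
    a ∈ spectrum ℂ A ↔ (1 - a⁻¹ • A).det = 0 := by
  rw [spectrum.mem_iff, Matrix.isUnit_iff_isUnit_det, isUnit_iff_ne_zero, not_not]
  have e : algebraMap ℂ (Matrix (Fin m) (Fin m) ℂ) a - A = a • (1 - a⁻¹ • A) := by
    rw [smul_sub, smul_smul, mul_inv_cancel₀ ha, one_smul, Algebra.algebraMap_eq_smul_one]
  rw [e, Matrix.det_smul, mul_eq_zero, or_iff_right (pow_ne_zero _ ha)]

/-- the traces of the powers, if the eigenvalues are at most one -/
theorem trace_pow_le {A : Matrix (Fin m) (Fin m) ℂ}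
    (h : ∀ z : ℂ, ‖z‖ < 1 → (1 - z • A).det ≠ 0) (k : ℕ) : ‖(A ^ k).trace‖ ≤ m := by
  have hs : ∀ a ∈ spectrum ℂ A, ‖a‖ ≤ 1 := by
    intro a ha
    by_contra hcon
    push Not at hcon
    have h0 : a ≠ 0 := by
      intro h1
      rw [h1, norm_zero] at hcon
      norm_num at hcon
    refine h a⁻¹ ?_ ((det_of_spectrum h0).1 ha)
    rw [norm_inv]
    exact inv_lt_one_of_one_lt₀ hcon
  have hs' : ∀ b ∈ spectrum ℂ (A ^ k), ‖b‖ ≤ 1 := by
    intro b hb
    rcases Nat.eq_zero_or_pos k with hk | hk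
    · subst hk
      rw [pow_zero] at hb
      by_cases hm : Nontrivial (Matrix (Fin m) (Fin m) ℂ)
      · rw [spectrum.one_eq, Set.mem_singleton_iff] at hb
        rw [hb, norm_one]
      · rw [not_nontrivial_iff_subsingleton] at hm
        rw [spectrum.of_subsingleton] at hb
        exact absurd hb (Set.notMem_empty _)
    · rw [spectrum.map_pow_of_pos A hk] at hb
      obtain ⟨a, ha, rfl⟩ := hb
      simp only [norm_pow]
      exact pow_le_one₀ (norm_nonneg _) (hs a ha)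
  obtain ⟨β, hβ⟩ := exists_isEig (A ^ k)
  have hβ1 : ∀ j, ‖β j‖ ≤ 1 := by
    intro j
    by_cases h0 : β j = 0
    · rw [h0, norm_zero]
      norm_num
    · refine hs' _ ((det_of_spectrum h0).2 ?_)
      rw [hβ]
      refine Finset.prod_eq_zero (Finset.mem_univ j) ?_
      rw [inv_mul_cancel₀ h0, sub_self]
  rw [hβ.trace]
  refine (norm_sum_le _ _).trans ?_
  exact (Finset.sum_le_card_nsmul _ _ 1 fun j _ => hβ1 j).trans (by simp)

theorem log_series_le {x : ℝ} (h0 : 0 ≤ x) (h1 : x ≤ 1 / 2) (n : ℕ) :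
    ∑ k ∈ Finset.Icc 1 n, x ^ k / k ≤ x + x ^ 2 := by
  rcases Nat.eq_zero_or_pos n with hn | hn
  · subst hn
    simp
    positivity
  · have h2 : ∑ k ∈ Finset.Icc 1 n, x ^ k / k ≤ x + x ^ 2 - x ^ (n + 1) := by
      induction n, hn using Nat.le_induction with
      | base => simp
      | succ n hn ih =>
        rw [Finset.sum_Icc_succ_top (by omega)]
        have h3 : x ^ (n + 1) / ((n + 1 : ℕ) : ℝ) ≤ x ^ (n + 1) - x ^ (n + 1 + 1) := by
          have h4 : (2 : ℝ) ≤ ((n + 1 : ℕ) : ℝ) := by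
            have : 2 ≤ n + 1 := by omega
            exact_mod_cast this
          have h5 : x ^ (n + 1) / ((n + 1 : ℕ) : ℝ) ≤ x ^ (n + 1) / 2 :=
            div_le_div_of_nonneg_left (by positivity) (by norm_num) h4
          have h6 : x ^ (n + 1 + 1) ≤ x ^ (n + 1) * (1 / 2) := by
            rw [pow_succ x (n + 1)]
            exact mul_le_mul_of_nonneg_left h1 (by positivity)
          linarith
        linarith
    have h3 : 0 ≤ x ^ (n + 1) := by positivity
    linarith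

/-- **Tempered representations satisfy the condition**, with the constant `m ^ 2`. -/
theorem tempered (h : ∀ v ∉ S, ∀ z : ℂ, ‖z‖ < 1 → (1 - z • M v).det ≠ 0) :
    RankinSelberg S M ((m : ℝ) ^ 2) := by
  classical
  refine ⟨fun v hv z hz => h v hv z ?_, fun η hη => ?_⟩
  · have h1 : (1 : ℝ) ≤ (Ideal.absNorm v.asIdeal : ℝ) := one_le_nm v
    have h2 : ‖z‖ ^ 2 < 1 := lt_of_le_of_lt (le_mul_of_one_le_right (sq_nonneg _) h1) hz
    nlinarith [norm_nonneg z]
  · obtain ⟨C1, h1⟩ := (sysK K).lam_bounded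
    set Z : ℝ := ∑' v : HeightOneSpectrum (𝓞 K), (nm K v : ℝ) ^ (-2 : ℝ) with hZ
    filter_upwards [h1, LL_tendsto.eventually_ge_atTop ((m : ℝ) ^ 2 * (C1 + Z) / η),
      self_mem_nhdsWithin] with ε h2 h3 h4 T n hT
    have hε : (0 : ℝ) < ε := h4
    have h5 : ∀ v ∈ T, ∑ k ∈ Finset.Icc 1 n, ‖(M v ^ k).trace‖ ^ 2 / k *
        (Ideal.absNorm v.asIdeal : ℝ) ^ (-(k * (1 + ε))) ≤
        (m : ℝ) ^ 2 * ((nm K v : ℝ) ^ (-(1 + ε)) + (nm K v : ℝ) ^ (-2 : ℝ)) := by
      intro v hv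
      have hvS : v ∉ S := Finset.disjoint_left.1 hT hv
      set x : ℝ := (nm K v : ℝ) ^ (-(1 + ε)) with hx
      have hx0 : 0 ≤ x := by positivity
      have hx1 : x ≤ (nm K v : ℝ) ^ (-1 : ℝ) :=
        Real.rpow_le_rpow_of_exponent_le (one_le_nm v) (by linarith)
      have hx2 : x ≤ 1 / 2 := by
        refine hx1.trans ?_
        rw [Real.rpow_neg_one, one_div]
        exact inv_anti₀ (by norm_num) (two_le_nm' v)
      have e1 : ∀ k ∈ Finset.Icc 1 n, ‖(M v ^ k).trace‖ ^ 2 / k *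
          (Ideal.absNorm v.asIdeal : ℝ) ^ (-(k * (1 + ε))) ≤ (m : ℝ) ^ 2 * (x ^ k / k) := by
        intro k _
        have e2 : (Ideal.absNorm v.asIdeal : ℝ) ^ (-((k : ℝ) * (1 + ε))) = x ^ k := by
          rw [hx, ← Real.rpow_natCast, ← Real.rpow_mul (nm_pos v).le]
          have e3 : (Ideal.absNorm v.asIdeal : ℝ) = (nm K v : ℝ) := rfl
          rw [e3]
          congr 1
          ring
        rw [e2]
        have e4 : ‖(M v ^ k).trace‖ ^ 2 ≤ (m : ℝ) ^ 2 :=
          pow_le_pow_left₀ (norm_nonneg _) (trace_pow_le (h v hvS) k) 2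
        calc ‖(M v ^ k).trace‖ ^ 2 / k * x ^ k = ‖(M v ^ k).trace‖ ^ 2 * (x ^ k / k) := by ring
          _ ≤ (m : ℝ) ^ 2 * (x ^ k / k) := mul_le_mul_of_nonneg_right e4 (by positivity)
      refine (Finset.sum_le_sum e1).trans ?_
      rw [← Finset.mul_sum]
      refine mul_le_mul_of_nonneg_left ((log_series_le hx0 hx2 n).trans ?_) (by positivity)
      have e5 : x ^ 2 ≤ (nm K v : ℝ) ^ (-2 : ℝ) := by
        calc x ^ 2 ≤ ((nm K v : ℝ) ^ (-1 : ℝ)) ^ 2 := pow_le_pow_left₀ hx0 hx1 2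
          _ = (nm K v : ℝ) ^ (-2 : ℝ) := by
            rw [← Real.rpow_natCast, ← Real.rpow_mul (nm_pos v).le]
            norm_num
      linarith
    refine (Finset.sum_le_sum h5).trans ?_
    rw [← Finset.mul_sum, Finset.sum_add_distrib]
    have s1 : Summable fun v : HeightOneSpectrum (𝓞 K) => (nm K v : ℝ) ^ (-(1 + ε)) :=
      summable_nm (by linarith)
    have e6 : ∑ v ∈ T, (nm K v : ℝ) ^ (-(1 + ε)) ≤ LL ε + C1 := by
      have e7 : ∑ v ∈ T, (nm K v : ℝ) ^ (-(1 + ε)) ≤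
          ∑' v : HeightOneSpectrum (𝓞 K), (nm K v : ℝ) ^ (-(1 + ε)) :=
        s1.sum_le_tsum T fun v _ => by positivity
      have e8 : ∑' v : HeightOneSpectrum (𝓞 K), (nm K v : ℝ) ^ (-(1 + ε)) = (sysK K).lam ε := rfl
      rw [e8] at e7
      have e9 := (abs_le.1 h2).2
      have e10 : LL ε = -Real.log ε := by
        unfold LL
        rw [one_div, Real.log_inv]
      linarith
    have e7 : ∑ v ∈ T, (nm K v : ℝ) ^ (-2 : ℝ) ≤ Z :=
      (summable_nm (r := -2) (by norm_num)).sum_le_tsum T fun v _ => by positivity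
    have e8 : (m : ℝ) ^ 2 * (C1 + Z) ≤ η * LL ε := by
      rw [div_le_iff₀ hη] at h3
      linarith
    have e9 : (m : ℝ) ^ 2 * (∑ v ∈ T, (nm K v : ℝ) ^ (-(1 + ε)) + ∑ v ∈ T, (nm K v : ℝ) ^ (-2 : ℝ))
        ≤ (m : ℝ) ^ 2 * (LL ε + C1 + Z) :=
      mul_le_mul_of_nonneg_left (add_le_add e6 e7) (by positivity)
    refine e9.trans ?_
    have e10 : Real.log (1 / ε) = LL ε := rfl
    rw [e10]
    nlinarith

/-- The virtual representation `θ` governs the orders of the functions `L(s, π, ρ ⊗ σ^∨)` on the line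
`Re s = 1`, `M v = ρ(A_v)`: whenever the order at a point `s = 1 + iτ` exists, for an irreducible `σ` and
a real `τ`, it is `-⟨σ ⊗ | |^{-iτ}, θ⟩`. -/
def Governs (M : HeightOneSpectrum (𝓞 K) → Matrix (Fin m) (Fin m) ℂ) (θ : WRep K) : Prop :=
  ∀ σ : WRep K, σ.IsIrr → ∀ (τ : ℝ) (B : HeightOneSpectrum (𝓞 K) → ℂ[X]) (r : ℤ),
    IsTwist M σ τ B → HasOrder 0 τ B (-r) → r = (shift σ (-τ)).inner θ

/-- The mean square of `tr ρ(A_v) - tr θ(v)` over the primes of degree one is at most `D`. -/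
def MeanSquare (S : Finset (HeightOneSpectrum (𝓞 K)))
    (M : HeightOneSpectrum (𝓞 K) → Matrix (Fin m) (Fin m) ℂ) (θ : WRep K) (D : ℝ) : Prop :=
  ∀ η : ℝ, 0 < η → ∀ᶠ ε : ℝ in 𝓝[>] 0, ∀ T : Finset (HeightOneSpectrum (𝓞 K)), Disjoint T S →
    (∀ v ∈ T, (Ideal.absNorm v.asIdeal).Prime) →
    ∑ v ∈ T, ‖(M v).trace - θ.trace v‖ ^ 2 * (Ideal.absNorm v.asIdeal : ℝ) ^ (-(1 + ε)) ≤
      (D + η) * Real.log (1 / ε)

/-- The irreducible representations `σ_1, …, σ_n`, at most `C/δ²` of them, are the exceptional ones for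
`δ`: if `σ` is irreducible and `σ ⊗ | |^{-iτ}` is orthogonal to all the `σ_k`, then, without any
assumption about a continuation, `|log |L(1 + iτ + ε, π, ρ ⊗ σ^∨)||` is less than `δ log(1/ε)` for
arbitrarily small `ε > 0`.  All the constituents of `θ` are among the `σ_k`. -/
def Exceptional (M : HeightOneSpectrum (𝓞 K) → Matrix (Fin m) (Fin m) ℂ) (θ : WRep K) (C δ : ℝ)
    {n : ℕ} (σ : Fin n → WRep K) : Prop :=
  n * δ ^ 2 ≤ C ∧ (∀ k, (σ k).IsIrr) ∧ (∀ k l, k ≠ l → (σ k).inner (σ l) = 0) ∧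
    (∀ ρ : WRep K, (∀ k, ρ.inner (σ k) = 0) → ρ.inner θ = 0) ∧
    ∀ (ρ : WRep K) (τ : ℝ), ρ.IsIrr → (∀ k, (shift ρ (-τ)).inner (σ k) = 0) →
      ∀ B : HeightOneSpectrum (𝓞 K) → ℂ[X], IsTwist M ρ τ B →
      (∀ᶠ ε : ℝ in 𝓝[>] 0, LFun B (edgePoint 0 τ + ε) ≠ 0) ∧
      ∃ᶠ ε : ℝ in 𝓝[>] 0, |size 0 τ B ε| < δ

/-- **The theorem.** -/
theorem main (h : RankinSelberg S M C) :
    ∃ θ : WRep K, ((θ.inner θ : ℤ) : ℝ) ≤ C ∧ Governs M θ ∧
      MeanSquare S M θ (C - θ.inner θ) ∧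
      ∀ δ : ℝ, 0 < δ → δ ≤ 1 → ∃ (n : ℕ) (σ : Fin n → WRep K), Exceptional M θ C δ σ := by
  classical
  obtain ⟨θ, h1, h2, n', σ', r, h3, h4⟩ := governing h
  refine ⟨θ, norm_le h2, fun σ hσ τ B r' hB hr => ?_, fun η hη => ?_, fun δ hδ0 hδ1 => ?_⟩
  · refine h1 _ (shift_irr hσ (-τ)) r' ?_
    have h5 := hasOrder_tendsto hr
    rw [Int.cast_neg, neg_neg] at h5
    have h6 := h5.sub (twist_tendsto h hB)
    rw [sub_zero] at h6
    refine h6.congr fun ε => ?_
    ring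
  · filter_upwards [h2 η hη] with ε h5 T hT hTp
    have h6 : ∑ v ∈ T, ‖(M v).trace - θ.trace v‖ ^ 2 *
        (Ideal.absNorm v.asIdeal : ℝ) ^ (-(1 + ε)) =
        ∑ v ∈ T, ‖tf S M v - tr1 θ v‖ ^ 2 * (nm K v : ℝ) ^ (-(1 + ε)) := by
      refine Finset.sum_congr rfl fun v hv => ?_
      have h7 : v ∉ S := Finset.disjoint_left.1 hT hv
      have h8 : v ∈ Set.range (vx (K := K)) := by
        obtain ⟨x, hx⟩ := exists_vx v (hTp v hv)
        exact ⟨x, hx⟩
      unfold tf tr1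
      rw [if_neg h7, if_pos h8]
      rfl
    rw [h6]
    exact (Summable.sum_le_tsum T (fun v _ => by positivity) h5.1).trans h5.2
  · obtain ⟨n, σ, g1, g2, g3, g4⟩ := exceptional h hδ0
    refine ⟨n, σ, g1, g2, g3, fun ρ hρ => ?_, fun ρ τ hρ hort B hB => ⟨?_, ?_⟩⟩
    · rw [h3, inner_comb]
      refine Finset.sum_eq_zero fun j _ => ?_
      obtain ⟨k1, k2, k3⟩ := h4 j
      have g5 : ∃ k, (σ' j).inner (σ k) ≠ 0 := by
        by_contra hcon
        push Not at hcon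
        obtain ⟨δ', hδ', g6⟩ := g4 (σ' j) k1 hcon
        have g7 : (1 : ℝ) ≤ |(r j : ℝ)| := by
          have : (1 : ℤ) ≤ |r j| := Int.one_le_abs k2
          exact_mod_cast this
        have g8 : ∀ᶠ ε : ℝ in 𝓝[>] 0, δ' < |mean S M (σ' j) ε| :=
          k3.abs.eventually_const_lt (by linarith)
        obtain ⟨ε, g9, g10⟩ := (g6.and_eventually g8).exists
        linarith
      obtain ⟨k, hk⟩ := g5
      have g7 := (irr_dichotomy k1 (g2 k) hk).2 ρ
      rw [WRep.inner_comm ρ, g7, WRep.inner_comm (σ k) ρ, hρ k, mul_zero, mul_zero]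
    · obtain ⟨N, hN⟩ := twist_bound h hB
      obtain ⟨D, hD⟩ := hN 1 one_pos
      exact hD.mono fun ε h => h.1
    · obtain ⟨δ', hδ', g6⟩ := g4 _ (shift_irr hρ (-τ)) hort
      have g7 := (twist_tendsto h hB).abs
      rw [abs_zero] at g7
      have g8 := g7.eventually_lt_const (show (0 : ℝ) < δ - δ' by linarith)
      refine (g6.and_eventually g8).mono fun ε g9 => ?_
      have g10 : size 0 τ B ε = (size 0 τ B ε - mean S M (shift ρ (-τ)) ε) +
        mean S M (shift ρ (-τ)) ε := by ring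
      rw [g10]
      refine lt_of_le_of_lt (abs_add_le _ _) ?_
      linarith [g9.1, g9.2]

end Pool.Agent.V8H25.Lang
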