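import Pool.Agent.V8H25.Lang.Size

/-!
# The size of the twisted L-function, II
-/

set_option autoImplicit false
set_option linter.unusedSectionVars false

namespace Pool.Agent.V8H25.Lang

open NumberField Complex Filter Topology IsDedekindDomain Asymptotics Polynomial
open Pool.Agent.N172.HS
open Pool.Agent.W353.EF (LFun)
open Pool.Agent.W353.TP (HX sysH LL LL_tendsto bdd_isLittleO lamS_sub)
open Pool.Agent.W353.NF (vx)
open Pool.Agent.W353.PV (pick pick_spec)
open Pool.Agent.W540.BE (nm two_le_nm EP normSys)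
open Pool.Agent.W353.EH (edgePoint size)
open Pool.Agent.V8H25.Gov (shift shift_trace norm_unr absNorm_pos)
open scoped ComplexConjugate

variable {K : Type} [Field K] [NumberField K] {m : ℕ}
  {S : Finset (HeightOneSpectrum (𝓞 K))}
  {M : HeightOneSpectrum (𝓞 K) → Matrix (Fin m) (Fin m) ℂ} {C : ℝ}

theorem norm_unr' (τ : ℝ) (v : HeightOneSpectrum (𝓞 K)) :
    ‖((nm K v : ℕ) : ℂ) ^ (-(τ * I))‖ = 1 := norm_unr τ (absNorm_pos v.ne_bot)

theorem conj_unr (τ : ℝ) (v : HeightOneSpectrum (𝓞 K)) :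
    conj (((nm K v : ℕ) : ℂ) ^ (-(((-τ : ℝ) : ℂ) * I))) = ((nm K v : ℕ) : ℂ) ^ (-(τ * I)) := by
  have hq : ((nm K v : ℕ) : ℂ) ≠ 0 := by exact_mod_cast (nm_pos v).ne'
  have h1 : ((nm K v : ℕ) : ℂ) ^ (-(((-τ : ℝ) : ℂ) * I)) *
      conj (((nm K v : ℕ) : ℂ) ^ (-(((-τ : ℝ) : ℂ) * I))) = 1 := by
    rw [Complex.mul_conj, Complex.normSq_eq_norm_sq, norm_unr']
    simp
  have h2 : ((nm K v : ℕ) : ℂ) ^ (-(((-τ : ℝ) : ℂ) * I)) * ((nm K v : ℕ) : ℂ) ^ (-(τ * I)) = 1 := by
    rw [← Complex.cpow_add _ _ hq]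
    push_cast
    rw [show -(-(τ : ℂ) * I) + -(τ * I) = 0 by ring, Complex.cpow_zero]
  have h3 : ((nm K v : ℕ) : ℂ) ^ (-(((-τ : ℝ) : ℂ) * I)) ≠ 0 := by
    rw [← norm_ne_zero_iff, norm_unr']
    exact one_ne_zero
  exact mul_left_cancel₀ h3 (h1.trans h2.symm)

/-- an arithmetic-geometric inequality -/
theorem norm_le_two (x : ℂ) {t : ℝ} (ht : 0 < t) : ‖x‖ ≤ (t * ‖x‖ ^ 2 + t⁻¹) / 2 := by
  have h : 0 ≤ t⁻¹ * (t * ‖x‖ - 1) ^ 2 := mul_nonneg (inv_nonneg.2 ht.le) (sq_nonneg _)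
  have e : t⁻¹ * (t * ‖x‖ - 1) ^ 2 = t * ‖x‖ ^ 2 + t⁻¹ - 2 * ‖x‖ := by
    field_simp
    ring
  linarith

/-- the main estimate: for every `t > 0` the difference is bounded by `t LL` and a constant -/
theorem twist_bound (h : RankinSelberg S M C) {σ : WRep K} {τ : ℝ}
    {B : HeightOneSpectrum (𝓞 K) → ℂ[X]} (hB : IsTwist M σ τ B) :
    ∃ N : ℕ, ∀ t : ℝ, 0 < t → ∃ D : ℝ, ∀ᶠ ε : ℝ in 𝓝[>] 0,
      LFun B (edgePoint 0 τ + ε) ≠ 0 ∧
      |Real.log ‖LFun B (edgePoint 0 τ + ε)‖ - ip ε (tf S M) (tr1 (shift σ (-τ)))| ≤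
        t * (N * (C + 1)) * LL ε + D := by
  classical
  obtain ⟨⟨N, hN⟩, h0⟩ := hB
  set α : HeightOneSpectrum (𝓞 K) → Fin m → ℂ := fun v => (exists_isEig (M v)).choose with hα
  have hαM : ∀ v, IsEig (M v) (α v) := fun v => (exists_isEig (M v)).choose_spec
  have hαn : ∀ v ∉ S, ∀ j, ‖α v j‖ ^ 2 ≤ (nm K v : ℝ) := fun v hv j =>
    (hαM v).norm_le (nm_pos v) (h.1 v hv) j
  set P : HeightOneSpectrum (𝓞 K) → (Fin N → ℂ) → Prop := fun v γ => (∀ l, ‖γ l‖ = 1) ∧
    ∑ l, γ l = conj (σ.trace v) ∧ ∀ z : ℂ, (B v).eval z = ∏ l, (1 - (z * γ l) • M v).det with hP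
  set γ : HeightOneSpectrum (𝓞 K) → Fin N → ℂ := fun v => pick (P v) with hγ
  set Good : HeightOneSpectrum (𝓞 K) → Prop := fun v => v ∉ S ∧ P v (γ v) with hGood
  have hgood : ∀ᶠ v in cofinite, Good v := by
    have hS : ∀ᶠ v in cofinite, v ∉ S := by
      rw [Filter.eventually_cofinite]
      refine S.finite_toSet.subset fun v hv => ?_
      rw [Set.mem_ofPred_eq, not_not] at hv
      exact hv
    filter_upwards [hS, hN] with v h1 h2
    exact ⟨h1, pick_spec h2⟩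
  have hfin : {v | ¬ Good v}.Finite := by rwa [Filter.eventually_cofinite] at hgood
  -- the local factors
  have hGex : ∀ (ε : ℝ) (v : HeightOneSpectrum (𝓞 K)), ∃ G : ℂ, 0 < ε → Good v →
      cexp G = ((B v).eval (xx τ ε v))⁻¹ ∧
      ‖G - ((M v).trace * (∑ l, γ v l) * xx τ ε v +
        (M v ^ 2).trace * (∑ l, γ v l ^ 2) * xx τ ε v ^ 2 / 2)‖ ≤
        2 * (N * m) * (nm K v : ℝ) ^ (-(3 / 2) : ℝ) := by
    intro ε v
    by_cases hc : 0 < ε ∧ Good v
    · obtain ⟨G, hG1, hG2⟩ := local_factor (hαM v) hc.2.2.1 (two_le_nm' v) (hαn v hc.2.1) hc.1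
        (norm_xx τ ε v)
      refine ⟨G, fun _ _ => ⟨?_, hG2⟩⟩
      rw [hG1, hc.2.2.2.2]
    · exact ⟨0, fun h1 h2 => absurd ⟨h1, h2⟩ hc⟩
  choose G hG using hGex
  -- the pieces
  set a : HeightOneSpectrum (𝓞 K) → ℂ := fun v => if Good v then
    (M v).trace * (∑ l, γ v l) * ((nm K v : ℕ) : ℂ) ^ (-(τ * I)) else 0 with ha
  set c : ℝ → HeightOneSpectrum (𝓞 K) → ℂ := fun ε v => if Good v then
    (M v ^ 2).trace * (∑ l, γ v l ^ 2) * xx τ ε v ^ 2 / 2 else 0 with hc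
  set r : ℝ → HeightOneSpectrum (𝓞 K) → ℂ := fun ε v =>
    (if Good v then G ε v else 0) - (a v * ((nm K v : ℝ) ^ (-(1 + ε)) : ℝ) + c ε v) with hr
  have hγs : ∀ v, Good v → ‖∑ l, γ v l‖ ≤ N := fun v hv => by
    refine (norm_sum_le _ _).trans ?_
    rw [Finset.sum_congr rfl fun l _ => hv.2.1 l]
    simp
  have hγs2 : ∀ v, Good v → ‖∑ l, γ v l ^ 2‖ ≤ N := fun v hv => by
    refine (norm_sum_le _ _).trans ?_
    refine (Finset.sum_le_card_nsmul _ _ 1 fun l _ => ?_).trans (by simp)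
    rw [norm_pow, hv.2.1 l, one_pow]
  have htf : ∀ v, Good v → (M v).trace = tf S M v := fun v hv => by
    unfold tf
    rw [if_neg hv.1]
  have htf2 : ∀ v, Good v → (M v ^ 2).trace = tf2 S M v := fun v hv => by
    unfold tf2
    rw [if_neg hv.1]
  have han : ∀ v, ‖a v‖ ≤ N * ‖tf S M v‖ := fun v => by
    rw [ha]
    simp only
    split_ifs with hv
    · rw [norm_mul, norm_mul, norm_unr', mul_one, htf v hv, mul_comm]
      exact mul_le_mul_of_nonneg_right (hγs v hv) (norm_nonneg _)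
    · rw [norm_zero]
      positivity
  have hcn : ∀ ε v, ‖c ε v‖ ≤ N / 2 * (‖tf2 S M v‖ * (nm K v : ℝ) ^ (-(2 * (1 + ε)))) :=
    fun ε v => by
    rw [hc]
    simp only
    split_ifs with hv
    · rw [norm_div, norm_mul, norm_mul, norm_pow, norm_xx_sq, htf2 v hv]
      have h1 := mul_le_mul_of_nonneg_right (mul_le_mul_of_nonneg_left (hγs2 v hv)
        (norm_nonneg (tf2 S M v))) (show 0 ≤ (nm K v : ℝ) ^ (-(2 * (1 + ε))) by positivity)
      have h2 : ‖(2 : ℂ)‖ = 2 := by simp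
      rw [h2]
      linarith
    · rw [norm_zero]
      positivity
  have hrn : ∀ ε, 0 < ε → ∀ v, ‖r ε v‖ ≤ 2 * (N * m) * (nm K v : ℝ) ^ (-(3 / 2) : ℝ) :=
    fun ε hε v => by
    rw [hr, ha, hc]
    simp only
    split_ifs with hv
    · refine le_trans (le_of_eq ?_) (hG ε v hε hv).2
      congr 2
      rw [xx_eq]
      ring
    · rw [zero_mul, add_zero, sub_zero, norm_zero]
      positivity
  obtain ⟨Co, hCo0, hCo⟩ := off1_sum (K := K)
  set Z : ℝ := ∑' v : HeightOneSpectrum (𝓞 K), (nm K v : ℝ) ^ (-2 : ℝ) with hZ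
  set Z3 : ℝ := ∑' v : HeightOneSpectrum (𝓞 K), (nm K v : ℝ) ^ (-(3 / 2) : ℝ) with hZ3
  set σ' : WRep K := shift σ (-τ) with hσ'
  set bad : ℝ := ∑ v ∈ hfin.toFinset, ‖tf S M v‖ * σ'.bd with hbad
  -- the summability
  have hsum : ∀ᶠ ε : ℝ in 𝓝[>] 0,
      Summable (fun v => a v * (((nm K v : ℝ) ^ (-(1 + ε)) : ℝ) : ℂ)) ∧ Summable (c ε) ∧
      Summable (r ε) := by
    filter_upwards [h.bound one_pos, h.bound2, self_mem_nhdsWithin] with ε h1 h2 h3
    have hε : (0 : ℝ) < ε := h3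
    refine ⟨?_, ?_, ?_⟩
    · refine Summable.of_norm_bounded (((Sm.add h1.1 (Sm.one hε))).mul_left (N : ℝ)) fun v => ?_
      rw [norm_mul, Complex.norm_real, Real.norm_eq_abs, abs_of_nonneg (wt_nonneg ε v), ← mul_assoc]
      refine mul_le_mul_of_nonneg_right ((han v).trans ?_) (wt_nonneg ε v)
      refine mul_le_mul_of_nonneg_left ?_ (Nat.cast_nonneg _)
      nlinarith [sq_nonneg (‖tf S M v‖ - 1)]
    · refine Summable.of_norm_bounded ((h2.1.add (summable_nm (r := -2) (by norm_num))).mul_left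
        ((N : ℝ) / 2)) fun v => ?_
      refine (hcn ε v).trans (mul_le_mul_of_nonneg_left ?_ (by positivity))
      have h4 : (nm K v : ℝ) ^ (-(2 * (1 + ε))) ≤ (nm K v : ℝ) ^ (-2 : ℝ) :=
        Real.rpow_le_rpow_of_exponent_le (one_le_nm v) (by linarith)
      have h5 : ‖tf2 S M v‖ ≤ ‖tf2 S M v‖ ^ 2 + 1 := by nlinarith [sq_nonneg (‖tf2 S M v‖ - 1)]
      have h6 : 0 ≤ (nm K v : ℝ) ^ (-(2 * (1 + ε))) := by positivity
      nlinarith [mul_le_mul_of_nonneg_right h5 h6]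
    · exact Summable.of_norm_bounded ((summable_nm (r := -(3 / 2)) (by norm_num)).mul_left _)
        (hrn ε hε)
  have hGsplit : ∀ ε v, (if Good v then G ε v else 0) =
      a v * (((nm K v : ℝ) ^ (-(1 + ε)) : ℝ) : ℂ) + c ε v + r ε v := fun ε v => by
    rw [hr]
    ring
  -- the Euler product
  obtain ⟨C', hC'⟩ := sizeG (normSys (F := K)) (Good := Good) hfin B (edgePoint 0 τ)
    (fun v _ => h0 v) G (by
      filter_upwards [hsum] with ε h1
      have h2 := (h1.1.add h1.2.1).add h1.2.2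
      refine h2.congr fun v => ?_
      exact (hGsplit ε v).symm) (L := fun ε => LFun B (edgePoint 0 τ + ε)) (by
      intro ε hε
      unfold LFun
      refine tprod_congr fun v => ?_
      split_ifs with hv
      · rw [(hG ε v hε hv).1]
        rfl
      · rfl)
  refine ⟨N, fun t ht => ⟨C' + N / 4 * (t⁻¹ * Z) + 2 * (N * m) * Z3 + N / 2 * (t⁻¹ * Co) + bad,
    ?_⟩⟩
  filter_upwards [hC', hsum, h.bound one_pos, h.bound2, self_mem_nhdsWithin,
    LL_tendsto.eventually_gt_atTop 0] with ε g1 g2 g3 g4 g5 g6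
  have hε : (0 : ℝ) < ε := g5
  refine ⟨g1.1, ?_⟩
  -- the three sums
  have t1 : (∑' v, if Good v then G ε v else 0) =
      (∑' v, a v * (((nm K v : ℝ) ^ (-(1 + ε)) : ℝ) : ℂ)) + (∑' v, c ε v) + ∑' v, r ε v := by
    rw [← g2.1.tsum_add g2.2.1, ← (g2.1.add g2.2.1).tsum_add g2.2.2]
    exact tsum_congr (hGsplit ε)
  have t2 : (∑' v, a v * (((nm K v : ℝ) ^ (-(1 + ε)) : ℝ) : ℂ)).re = EV K ε fun v => (a v).re := by
    rw [Complex.re_tsum g2.1, EV_def]
    exact tsum_congr fun v => by rw [Complex.re_mul_ofReal]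
  have t3 : ‖∑' v, c ε v‖ ≤ N / 4 * (t * (2 * (C + 1) * LL ε) + t⁻¹ * Z) := by
    have s1 : ∀ v, ‖c ε v‖ ≤ N / 4 * (t * (‖tf2 S M v‖ ^ 2 * (nm K v : ℝ) ^ (-(2 * (1 + ε)))) +
        t⁻¹ * (nm K v : ℝ) ^ (-2 : ℝ)) := by
      intro v
      refine (hcn ε v).trans ?_
      have s2 := norm_le_two (tf2 S M v) ht
      have s3 : 0 ≤ (nm K v : ℝ) ^ (-(2 * (1 + ε))) := by positivity
      have s4 : (nm K v : ℝ) ^ (-(2 * (1 + ε))) ≤ (nm K v : ℝ) ^ (-2 : ℝ) :=
        Real.rpow_le_rpow_of_exponent_le (one_le_nm v) (by linarith)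
      have s5 := mul_le_mul_of_nonneg_right s2 s3
      have s6 : t⁻¹ * (nm K v : ℝ) ^ (-(2 * (1 + ε))) ≤ t⁻¹ * (nm K v : ℝ) ^ (-2 : ℝ) :=
        mul_le_mul_of_nonneg_left s4 (inv_nonneg.2 ht.le)
      have s7 : ‖tf2 S M v‖ * (nm K v : ℝ) ^ (-(2 * (1 + ε))) ≤
          (t * (‖tf2 S M v‖ ^ 2 * (nm K v : ℝ) ^ (-(2 * (1 + ε)))) +
            t⁻¹ * (nm K v : ℝ) ^ (-2 : ℝ)) / 2 := by
        have e : (t * ‖tf2 S M v‖ ^ 2 + t⁻¹) / 2 * (nm K v : ℝ) ^ (-(2 * (1 + ε))) =
            (t * (‖tf2 S M v‖ ^ 2 * (nm K v : ℝ) ^ (-(2 * (1 + ε)))) +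
              t⁻¹ * (nm K v : ℝ) ^ (-(2 * (1 + ε)))) / 2 := by ring
        rw [e] at s5
        linarith
      have s8 := mul_le_mul_of_nonneg_left s7 (show (0 : ℝ) ≤ N / 2 by positivity)
      refine s8.trans (le_of_eq ?_)
      ring
    have s9 : Summable fun v => N / 4 * (t * (‖tf2 S M v‖ ^ 2 *
        (nm K v : ℝ) ^ (-(2 * (1 + ε)))) + t⁻¹ * (nm K v : ℝ) ^ (-2 : ℝ)) :=
      ((g4.1.mul_left t).add ((summable_nm (r := -2) (by norm_num)).mul_left t⁻¹)).mul_left _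
    have s10 := tsum_of_norm_bounded s9.hasSum s1
    refine s10.trans ?_
    rw [tsum_mul_left, (g4.1.mul_left t).tsum_add
      ((summable_nm (r := -2) (by norm_num)).mul_left t⁻¹), tsum_mul_left, tsum_mul_left]
    refine mul_le_mul_of_nonneg_left ?_ (by positivity)
    exact add_le_add (mul_le_mul_of_nonneg_left g4.2 ht.le) le_rfl
  have t4 : ‖∑' v, r ε v‖ ≤ 2 * (N * m) * Z3 := by
    rw [hZ3, ← tsum_mul_left]
    exact tsum_of_norm_bounded ((summable_nm (r := -(3 / 2)) (by norm_num)).mul_left _).hasSum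
      (hrn ε hε)
  -- the first powers
  set d : HeightOneSpectrum (𝓞 K) → ℝ := fun v =>
    (a v).re + (-1) * (tf S M v * conj (tr1 σ' v)).re with hd
  have hdn : ∀ v, |d v| ≤ N / 2 * (t * ‖tf S M v‖ ^ 2 + t⁻¹ * off1 v) +
      (if Good v then 0 else ‖tf S M v‖ * σ'.bd) := by
    intro v
    have hpos : 0 ≤ N / 2 * (t * ‖tf S M v‖ ^ 2 + t⁻¹ * off1 v) := by
      have := off1_nonneg v
      positivity
    by_cases hv : Good v
    · rw [if_pos hv, add_zero]
      by_cases hv1 : v ∈ Set.range (vx (K := K))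
      · have e1 : tr1 σ' v = σ'.trace v := by
          unfold tr1
          rw [if_pos hv1]
        have e2 : conj (tr1 σ' v) = ((nm K v : ℕ) : ℂ) ^ (-(τ * I)) * conj (σ.trace v) := by
          rw [e1, hσ', shift_trace, map_mul]
          congr 1
          exact conj_unr τ v
        have e3 : d v = 0 := by
          rw [hd, ha]
          simp only
          rw [if_pos hv, e2, hv.2.2.1, htf v hv]
          have e4 : tf S M v * conj (σ.trace v) * ((nm K v : ℕ) : ℂ) ^ (-(τ * I)) =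
            tf S M v * (((nm K v : ℕ) : ℂ) ^ (-(τ * I)) * conj (σ.trace v)) := by ring
          rw [e4]
          ring
        rw [e3, abs_zero]
        exact hpos
      · have e1 : tr1 σ' v = 0 := by
          unfold tr1
          rw [if_neg hv1]
        have e2 : off1 v = 1 := by
          unfold off1
          rw [if_neg hv1]
        have e3 : d v = (a v).re := by
          rw [hd]
          simp only
          rw [e1, map_zero, mul_zero, Complex.zero_re, mul_zero, add_zero]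
        rw [e3, e2, mul_one]
        refine (Complex.abs_re_le_norm _).trans ((han v).trans ?_)
        have h5 := mul_le_mul_of_nonneg_left (norm_le_two (tf S M v) ht) (Nat.cast_nonneg (α := ℝ) N)
        refine h5.trans (le_of_eq ?_)
        ring
    · rw [if_neg hv]
      have e1 : a v = 0 := by
        rw [ha]
        simp only
        rw [if_neg hv]
      have e2 : |d v| ≤ ‖tf S M v‖ * σ'.bd := by
        rw [hd]
        simp only
        rw [e1, Complex.zero_re, zero_add, neg_one_mul, abs_neg]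
        refine (Complex.abs_re_le_norm _).trans ?_
        rw [norm_mul, Complex.norm_conj]
        exact mul_le_mul_of_nonneg_left (norm_tr1_le σ' v) (norm_nonneg _)
      linarith
  have hL2 : L2 ε (tr1 σ') := tr1_L2 hε σ'
  have hsa : Sm ε fun v => (a v).re := by
    unfold Sm
    refine Summable.of_norm_bounded g2.1.norm fun v => ?_
    rw [Real.norm_eq_abs, abs_mul, norm_mul, Complex.norm_real, Real.norm_eq_abs]
    exact mul_le_mul_of_nonneg_right (Complex.abs_re_le_norm _) (abs_nonneg _)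
  have hsip : Sm ε fun v => (tf S M v * conj (tr1 σ' v)).re := L2.mul g3.1 hL2
  have u1 : EV K ε d = EV K ε (fun v => (a v).re) - ip ε (tf S M) (tr1 σ') := by
    rw [hd, EV_add' hsa (hsip.const_mul (-1)), EV_const_mul']
    unfold ip
    ring
  have hoff : Sm ε (off1 (K := K)) := Sm.bdd hε (b := 1) fun v => by
    rw [abs_of_nonneg (off1_nonneg v)]
    exact off1_le v
  have hsbad : Sm ε fun v => (if Good v then (0 : ℝ) else ‖tf S M v‖ * σ'.bd) := by
    unfold Sm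
    refine summable_of_ne_finset_zero (s := hfin.toFinset) fun v hv => ?_
    have : Good v := by
      by_contra hcon
      exact hv (hfin.mem_toFinset.2 hcon)
    simp only [this, if_true, zero_mul]
  have u2 : EV K ε (fun v => (if Good v then (0 : ℝ) else ‖tf S M v‖ * σ'.bd)) ≤ bad := by
    rw [EV_def, tsum_eq_sum (s := hfin.toFinset) (fun v hv => by
      have : Good v := by
        by_contra hcon
        exact hv (hfin.mem_toFinset.2 hcon)
      simp only [this, if_true, zero_mul])]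
    refine Finset.sum_le_sum fun v hv => ?_
    simp only [if_neg (hfin.mem_toFinset.1 hv)]
    refine mul_le_of_le_one_right (mul_nonneg (norm_nonneg _) σ'.bd_nonneg) ?_
    exact Real.rpow_le_one_of_one_le_of_nonpos (one_le_nm v) (by linarith)
  have hmaj : Sm ε fun v => N / 2 * (t * ‖tf S M v‖ ^ 2 + t⁻¹ * off1 v) +
      (if Good v then (0 : ℝ) else ‖tf S M v‖ * σ'.bd) :=
    (((Sm.const_mul g3.1 t).add (hoff.const_mul t⁻¹)).const_mul (N / 2 : ℝ)).add hsbad
  have u3 : |EV K ε d| ≤ N / 2 * (t * ((C + 1) * LL ε) + t⁻¹ * Co) + bad := by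
    have w1 : |EV K ε d| ≤ EV K ε (fun v => N / 2 * (t * ‖tf S M v‖ ^ 2 + t⁻¹ * off1 v) +
        (if Good v then (0 : ℝ) else ‖tf S M v‖ * σ'.bd)) := by
      rw [EV_def, EV_def, ← Real.norm_eq_abs]
      refine tsum_of_norm_bounded (Summable.hasSum hmaj) fun v => ?_
      rw [Real.norm_eq_abs, abs_mul, abs_of_nonneg (wt_nonneg ε v)]
      exact mul_le_mul_of_nonneg_right (hdn v) (wt_nonneg ε v)
    refine w1.trans ?_
    rw [EV_add' (((Sm.const_mul g3.1 t).add (hoff.const_mul t⁻¹)).const_mul (N / 2 : ℝ)) hsbad,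
      EV_const_mul', EV_add' (Sm.const_mul g3.1 t) (hoff.const_mul t⁻¹), EV_const_mul',
      EV_const_mul']
    refine add_le_add (mul_le_mul_of_nonneg_left ?_ (by positivity)) u2
    exact add_le_add (mul_le_mul_of_nonneg_left g3.2 ht.le)
      (mul_le_mul_of_nonneg_left (hCo ε hε) (inv_nonneg.2 ht.le))
  -- together
  have f1 : (∑' v, if Good v then G ε v else 0).re =
      EV K ε (fun v => (a v).re) + (∑' v, c ε v).re + (∑' v, r ε v).re := by
    rw [t1, Complex.add_re, Complex.add_re, t2]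
  have f2 := (Complex.abs_re_le_norm (∑' v, c ε v)).trans t3
  have f3 := (Complex.abs_re_le_norm (∑' v, r ε v)).trans t4
  have f4 := g1.2
  rw [f1] at f4
  have f5 := abs_le.1 f2
  have f6 := abs_le.1 f3
  have f7 := abs_le.1 f4
  have f8 := abs_le.1 u3
  rw [u1] at f8
  have hCLL : 0 ≤ (C + 1) * LL ε := mul_nonneg (by have := h.nonneg; linarith) g6.le
  rw [abs_le]
  constructor <;> nlinarith
end Pool.Agent.V8H25.Lang
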